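import Pool.Agent.H3.XB.Walk

/-!
# Lemma X for curved leaves: the chain over the depths

`xb_blk` is one block: the record `N` of the next depth has `k + r` full digits per digit of
position. `xb_chain` is the sum over the depths: the own leaf `A` has entropy at least
`∑ ord s * X` digits.
-/

set_option autoImplicit false

namespace Pool.XB

open Finset Real
open Pool.Agent.H49.Ent Pool.Agent.H32.Dense Pool.STK Pool.KSAT

/-- **One block.** `η` is the position in the block in the other directions, `ζ` in the direction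
of the walk. -/
theorem xb_blk (r : ℕ) : ∃ C : ℝ, 0 ≤ C ∧ ∀ {Ω α β υ σ ν : Type} [Fintype Ω] {p : Ω → ℝ},
    IsLaw p → ∀ (X k E : ℕ) (A : Ω → α) (B : Ω → β) (V : Ω → υ) (N : Ω → ν) (η : Ω → σ)
    (ζ x : Ω → ℕ) (c : Ω → ℝ) (M1 M2 : Ω → Fin r → ℤ) (θA θB C0 : ℝ),
    1 ≤ E → 0 ≤ θA → 0 ≤ θB → 0 ≤ C0 → (∀ ω, ζ ω ≤ 2 ^ X) →
    Det p (fun ω => (η ω, V ω)) x → Det p (fun ω => (η ω, V ω)) c →
    Det p (fun ω => (A ω, (η ω, V ω))) M1 → Det p (fun ω => (B ω, (η ω, V ω))) M2 →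
    (∀ ω, 0 < p ω → ∀ j, |(M1 ω j : ℝ) - M2 ω j -
      2 ^ X * (c ω * vv r ((ζ ω : ℝ) / 2 ^ X) j)| ≤ E) →
    (∀ ω, 0 < p ω → X ≤ x ω ∨ 1 / 2 ^ x ω ≤ |c ω|) →
    CH p η V ≤ ((k : ℝ) - 1) * (X * Real.log 2) + C0 →
    k * (X * Real.log 2) - θA ≤ CH p (fun ω => (η ω, ζ ω)) (fun ω => (A ω, V ω)) →
    k * (X * Real.log 2) - θB ≤ CH p (fun ω => (η ω, ζ ω)) (fun ω => (B ω, V ω)) →
    CH p (fun ω => (η ω, ζ ω, M2 ω)) (fun ω => (N ω, V ω)) ≤ C0 →
    ((k : ℝ) + r) * (X * Real.log 2) - C * (θA + θB + 1 + C0 + Real.log E) -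
      r * Real.log 2 * Ex p (fun ω => (x ω : ℝ)) ≤ CH p N V := by
  obtain ⟨C, hC0, hC⟩ := xb r
  refine ⟨2 * C + 1, by positivity, ?_⟩
  intro Ω α β υ σ ν _ p hp X k E A B V N η ζ x c M1 M2 θA θB C0 hE hθA hθB hc0 hζ hx hc hM1 hM2
    hM hcx hη hA hB hN
  have h0 := hp.nonneg
  have hlE : 0 ≤ Real.log E := Real.log_nonneg (by exact_mod_cast hE)
  -- the digit in the direction of the walk is full
  have key : ∀ {γ : Type} (G : Ω → γ) (θ : ℝ),
      k * (X * Real.log 2) - θ ≤ CH p (fun ω => (η ω, ζ ω)) (fun ω => (G ω, V ω)) →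
      X * Real.log 2 - (θ + C0) ≤ CH p ζ (fun ω => (G ω, (η ω, V ω))) := by
    intro γ G θ h
    have h1 := CH_chain h0 ζ η (fun ω => (G ω, V ω))
    have h2 : CH p (fun ω => (η ω, ζ ω)) (fun ω => (G ω, V ω)) ≤
        CH p (fun ω => (ζ ω, η ω)) (fun ω => (G ω, V ω)) := by
      refine CH_mono_left h0 fun ω ω' _ _ hh => ?_
      simp only [Prod.mk.injEq] at hh ⊢
      exact ⟨hh.1.2, hh.1.1⟩
    have h3 : CH p η (fun ω => (G ω, V ω)) ≤ CH p η V :=
      CH_mono_cond h0 fun _ _ _ _ hh => (Prod.ext_iff.mp hh).2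
    have h4 : CH p ζ (fun ω => (η ω, (G ω, V ω))) ≤ CH p ζ (fun ω => (G ω, (η ω, V ω))) := by
      refine CH_mono_cond h0 fun ω ω' _ _ hh => ?_
      simp only [Prod.mk.injEq] at hh ⊢
      exact ⟨hh.2.1, hh.1, hh.2.2⟩
    linarith
  have h1 := hC hp X A B (fun ω => (η ω, V ω)) ζ x c M1 M2 E (θA + C0) (θB + C0) hζ hE
    (by linarith) (by linarith) hx hc hM1 hM2 hM hcx (key A θA hA) (key B θB hB)
  -- the record of the next depth
  have h2 : CH p (fun ω => (η ω, ζ ω, M2 ω)) V ≤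
      CH p N V + CH p (fun ω => (η ω, ζ ω, M2 ω)) (fun ω => (N ω, V ω)) :=
    CH_le_add h0 _ N V
  have h3 : CH p (fun ω => (ζ ω, (M2 ω, η ω))) V ≤ CH p (fun ω => (η ω, ζ ω, M2 ω)) V := by
    refine CH_mono_left h0 fun ω ω' _ _ hh => ?_
    simp only [Prod.mk.injEq] at hh ⊢
    exact ⟨hh.1.2.1, hh.1.2.2, hh.1.1⟩
  have h4 := CH_chain h0 ζ (fun ω => (M2 ω, η ω)) V
  have h5 := CH_chain h0 M2 η V
  have h6 := CH_chain h0 ζ η (fun ω => (B ω, V ω))
  have h7 : CH p (fun ω => (η ω, ζ ω)) (fun ω => (B ω, V ω)) ≤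
      CH p (fun ω => (ζ ω, η ω)) (fun ω => (B ω, V ω)) := by
    refine CH_mono_left h0 fun ω ω' _ _ hh => ?_
    simp only [Prod.mk.injEq] at hh ⊢
    exact ⟨hh.1.2, hh.1.1⟩
  have h8 : CH p η (fun ω => (B ω, V ω)) ≤ CH p η V :=
    CH_mono_cond h0 fun _ _ _ _ hh => (Prod.ext_iff.mp hh).2
  have h9 : CH p ζ (fun ω => (η ω, (B ω, V ω))) ≤ CH p ζ (fun ω => ((M2 ω, η ω), V ω)) := by
    refine CH_mono_cond h0 fun ω ω' a b hh => ?_
    simp only [Prod.mk.injEq] at hh ⊢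
    exact ⟨⟨hM2 ω ω' a b (by simp only [Prod.mk.injEq]; exact ⟨hh.2.1, hh.1, hh.2.2⟩), hh.1⟩,
      hh.2.2⟩
  have e1 : (2 * C + 1) * (θA + θB + 1 + C0 + Real.log E) =
      C * (θA + C0 + (θB + C0) + 1 + Real.log E) +
        (C * (θA + θB + 1 + Real.log E) + (θA + θB + 1 + C0 + Real.log E)) := by ring
  have e2 : 0 ≤ C * (θA + θB + 1 + Real.log E) := by positivity
  rw [e1]
  have e3 : ((k : ℝ) + r) * (X * Real.log 2) = k * (X * Real.log 2) + r * (X * Real.log 2) := by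
    ring
  rw [e3]
  linarith

/-- The data of the chain. `Y s` is the position to depth `s * X`, `R s` the record at this
depth, `W` the world, `A` and `B` the own leaves. -/
structure Chn {Ω α β τ υ ρ σ : Type} [Fintype Ω] (p : Ω → ℝ) (X k r E S : ℕ) (C0 : ℝ)
    (A : Ω → α) (B : Ω → β) (W : Ω → τ) (Y : ℕ → Ω → υ) (R : ℕ → Ω → ρ) (ord : ℕ → ℕ)
    (η : ℕ → Ω → σ) (ζ x : ℕ → Ω → ℕ) (c : ℕ → Ω → ℝ)
    (M1 M2 : (s : ℕ) → Ω → Fin (ord s) → ℤ) : Prop where
  ord_le : ∀ s, ord s ≤ r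
  cell : ∀ s ω, ζ s ω ≤ 2 ^ X
  nest : ∀ s < S, Det p (fun ω => (R (s + 1) ω, W ω)) (R s)
  pos : ∀ s ≤ S, Det p (fun ω => (R s ω, W ω)) (Y s)
  recA : ∀ s ≤ S, CH p (R s) (fun ω => (Y s ω, (A ω, W ω))) ≤ C0
  recB : ∀ s ≤ S, CH p (R s) (fun ω => (Y s ω, (B ω, W ω))) ≤ C0
  dx : ∀ s < S, Det p (fun ω => (η s ω, (R s ω, W ω))) (x s)
  dc : ∀ s < S, Det p (fun ω => (η s ω, (R s ω, W ω))) (c s)
  dM1 : ∀ s < S, Det p (fun ω => (A ω, (η s ω, (R s ω, W ω)))) (M1 s)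
  dM2 : ∀ s < S, Det p (fun ω => (B ω, (η s ω, (R s ω, W ω)))) (M2 s)
  rel : ∀ s < S, ∀ ω, 0 < p ω → ∀ j, |(M1 s ω j : ℝ) - M2 s ω j -
    2 ^ X * (c s ω * vv (ord s) ((ζ s ω : ℝ) / 2 ^ X) j)| ≤ E
  big : ∀ s < S, ∀ ω, 0 < p ω → X ≤ x s ω ∨ 1 / 2 ^ x s ω ≤ |c s ω|
  hη : ∀ s < S, CH p (η s) (fun ω => (R s ω, W ω)) ≤ ((k : ℝ) - 1) * (X * Real.log 2) + C0
  next : ∀ s < S, CH p (Y (s + 1)) (fun ω => ((η s ω, ζ s ω), (R s ω, W ω))) ≤ C0
  out : ∀ s < S, CH p (fun ω => (η s ω, ζ s ω, M2 s ω))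
    (fun ω => (R (s + 1) ω, (R s ω, W ω))) ≤ C0

/-- **Lemma X for curved leaves.** -/
theorem xb_chain (r : ℕ) : ∃ C : ℝ, 0 ≤ C ∧ ∀ {Ω α β τ υ ρ σ : Type} [Fintype Ω] {p : Ω → ℝ},
    IsLaw p → ∀ (X k E S : ℕ) (C0 : ℝ) (A : Ω → α) (B : Ω → β) (W : Ω → τ) (Y : ℕ → Ω → υ)
    (R : ℕ → Ω → ρ) (ord : ℕ → ℕ) (η : ℕ → Ω → σ) (ζ x : ℕ → Ω → ℕ) (c : ℕ → Ω → ℝ)
    (M1 M2 : (s : ℕ) → Ω → Fin (ord s) → ℤ) (θ : ℝ), 1 ≤ E → 0 ≤ C0 → 0 ≤ θ →
    Chn p X k r E S C0 A B W Y R ord η ζ x c M1 M2 →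
    CH p (Y 0) W ≤ C0 →
    CH p (Y S) (fun ω => (A ω, W ω)) ≤ k * (S * (X * Real.log 2)) + C0 * (S + 1) →
    k * (S * (X * Real.log 2)) - θ ≤ CH p (Y S) (fun ω => (A ω, W ω)) →
    k * (S * (X * Real.log 2)) - θ ≤ CH p (Y S) (fun ω => (B ω, W ω)) →
    (∑ s ∈ range S, (ord s : ℝ)) * (X * Real.log 2) -
      C * (θ + (S + 1) * (1 + C0 + Real.log E)) -
      r * Real.log 2 * ∑ s ∈ range S, Ex p (fun ω => (x s ω : ℝ)) ≤ CH p A W := by
  classical
  choose C hC0 hC using xb_blk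
  set D : ℝ := ∑ j ∈ range (r + 1), C j with hD
  have hD0 : 0 ≤ D := Finset.sum_nonneg fun j _ => hC0 j
  have hCD : ∀ j ≤ r, C j ≤ D := fun j hj =>
    Finset.single_le_sum (f := C) (fun i _ => hC0 i) (Finset.mem_range.2 (by omega))
  refine ⟨7 * D + 2, by positivity, ?_⟩
  intro Ω α β τ υ ρ σ _ p hp X k E S C0 A B W Y R ord η ζ x c M1 M2 θ hE hc0 hθ h hY0 hYS hA hB
  have h0 := hp.nonneg
  have hlE : 0 ≤ Real.log E := Real.log_nonneg (by exact_mod_cast hE)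
  have hlog2 : 0 ≤ Real.log 2 := Real.log_nonneg (by norm_num)
  have hlog2' : Real.log 2 ≤ 1 := by
    have := Real.log_two_lt_d9
    linarith
  set aA : ℕ → ℝ := fun s => CH p (fun ω => (η s ω, ζ s ω)) (fun ω => (A ω, (R s ω, W ω)))
    with haA
  set aB : ℕ → ℝ := fun s => CH p (fun ω => (η s ω, ζ s ω)) (fun ω => (B ω, (R s ω, W ω)))
    with haB
  -- upper bound of the entropy of a block
  have hub : ∀ {γ : Type} (G : Ω → γ), ∀ s < S,
      CH p (fun ω => (η s ω, ζ s ω)) (fun ω => (G ω, (R s ω, W ω))) ≤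
        k * (X * Real.log 2) + (C0 + Real.log 2) := by
    intro γ G s hs
    have h1 := CH_subadd h0 (η s) (ζ s) (fun ω => (G ω, (R s ω, W ω)))
    have h2 : CH p (η s) (fun ω => (G ω, (R s ω, W ω))) ≤ CH p (η s) (fun ω => (R s ω, W ω)) :=
      CH_mono_cond h0 fun _ _ _ _ hh => (Prod.ext_iff.mp hh).2
    have h3 := h.hη s hs
    have h4 := CH_cell hp (h.cell s) (fun ω => (G ω, (R s ω, W ω)))
    linarith
  -- the sum of the entropies of the blocks
  have hlow : ∀ {γ : Type} (G : Ω → γ),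
      (∀ s ≤ S, CH p (R s) (fun ω => (Y s ω, (G ω, W ω))) ≤ C0) → ∀ s ≤ S,
      CH p (Y s) (fun ω => (G ω, W ω)) ≤ C0 + ∑ i ∈ range s,
        (CH p (fun ω => (η i ω, ζ i ω)) (fun ω => (G ω, (R i ω, W ω))) + 2 * C0) := by
    intro γ G hG s
    induction s with
    | zero =>
      intro _
      rw [Finset.sum_range_zero, add_zero]
      exact (CH_mono_cond h0 fun _ _ _ _ hh => (Prod.ext_iff.mp hh).2).trans hY0
    | succ s ih =>
      intro hs
      have h1 := ih (by omega)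
      have h2 := CH_le_add h0 (Y (s + 1)) (Y s) (fun ω => (G ω, W ω))
      have h3 := CH_le_add h0 (Y (s + 1)) (R s) (fun ω => (Y s ω, (G ω, W ω)))
      have h4 := hG s (by omega)
      have h5 : CH p (Y (s + 1)) (fun ω => (R s ω, (Y s ω, (G ω, W ω)))) ≤
          CH p (Y (s + 1)) (fun ω => (G ω, (R s ω, W ω))) := by
        refine CH_mono_cond h0 fun ω ω' _ _ hh => ?_
        simp only [Prod.mk.injEq] at hh ⊢
        exact ⟨hh.2.2.1, hh.1, hh.2.2.2⟩
      have h6 := CH_le_add h0 (Y (s + 1)) (fun ω => (η s ω, ζ s ω))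
        (fun ω => (G ω, (R s ω, W ω)))
      have h7 : CH p (Y (s + 1)) (fun ω => ((η s ω, ζ s ω), (G ω, (R s ω, W ω)))) ≤
          CH p (Y (s + 1)) (fun ω => ((η s ω, ζ s ω), (R s ω, W ω))) := by
        refine CH_mono_cond h0 fun ω ω' _ _ hh => ?_
        simp only [Prod.mk.injEq] at hh ⊢
        exact ⟨hh.1, hh.2.2⟩
      have h8 := h.next s (by omega)
      rw [Finset.sum_range_succ]
      linarith
  -- the records
  have hrec : ∀ s ≤ S, ∑ i ∈ range s, CH p (R (i + 1)) (fun ω => (R i ω, W ω)) ≤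
      CH p (R s) W := by
    intro s
    induction s with
    | zero =>
      intro _
      rw [Finset.sum_range_zero]
      exact CH_nonneg h0 _ _
    | succ s ih =>
      intro hs
      have h1 := ih (by omega)
      have h2 := CH_chain h0 (R (s + 1)) (R s) W
      have h3 : CH p (fun ω => (R (s + 1) ω, R s ω)) W ≤ CH p (R (s + 1)) W := by
        refine CH_mono_left h0 fun ω ω' a b hh => ?_
        simp only [Prod.mk.injEq] at hh ⊢
        exact ⟨hh.1, h.nest s (by omega) ω ω' a b (by simp only [Prod.mk.injEq]; exact hh)⟩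
      rw [Finset.sum_range_succ]
      linarith
  -- one block
  have hblk : ∀ s ∈ range S, (((k : ℝ) + ord s) * (X * Real.log 2) -
      D * ((k * (X * Real.log 2) - aA s + (C0 + Real.log 2)) +
        (k * (X * Real.log 2) - aB s + (C0 + Real.log 2)) + 1 + C0 + Real.log E) -
      r * Real.log 2 * Ex p (fun ω => (x s ω : ℝ))) ≤
      CH p (R (s + 1)) (fun ω => (R s ω, W ω)) := by
    intro s hs
    have hs' : s < S := Finset.mem_range.1 hs
    have hA0 : 0 ≤ k * (X * Real.log 2) - aA s + (C0 + Real.log 2) := by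
      have := hub A s hs'
      simp only [haA]
      linarith
    have hB0 : 0 ≤ k * (X * Real.log 2) - aB s + (C0 + Real.log 2) := by
      have := hub B s hs'
      simp only [haB]
      linarith
    have h1 := hC (ord s) hp X k E A B (fun ω => (R s ω, W ω)) (R (s + 1)) (η s) (ζ s) (x s)
      (c s) (M1 s) (M2 s) (k * (X * Real.log 2) - aA s + (C0 + Real.log 2))
      (k * (X * Real.log 2) - aB s + (C0 + Real.log 2)) C0 hE hA0 hB0 hc0 (h.cell s)
      (h.dx s hs') (h.dc s hs') (h.dM1 s hs') (h.dM2 s hs') (h.rel s hs') (h.big s hs')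
      (h.hη s hs') (by simp only [haA]; linarith) (by simp only [haB]; linarith) (h.out s hs')
    refine le_trans ?_ h1
    have e1 : C (ord s) * ((k * (X * Real.log 2) - aA s + (C0 + Real.log 2)) +
        (k * (X * Real.log 2) - aB s + (C0 + Real.log 2)) + 1 + C0 + Real.log E) ≤
        D * ((k * (X * Real.log 2) - aA s + (C0 + Real.log 2)) +
        (k * (X * Real.log 2) - aB s + (C0 + Real.log 2)) + 1 + C0 + Real.log E) :=
      mul_le_mul_of_nonneg_right (hCD _ (h.ord_le s)) (by linarith)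
    have e2 : (ord s : ℝ) * Real.log 2 * Ex p (fun ω => (x s ω : ℝ)) ≤
        r * Real.log 2 * Ex p (fun ω => (x s ω : ℝ)) := by
      refine mul_le_mul_of_nonneg_right ?_ (Ex_nonneg h0 fun _ _ => Nat.cast_nonneg _)
      refine mul_le_mul_of_nonneg_right ?_ hlog2
      exact_mod_cast h.ord_le s
    linarith
  have hsum := Finset.sum_le_sum hblk
  have g1 := hrec S le_rfl
  have g2 := CH_le_add h0 (R S) A W
  have g3 := CH_le_add h0 (R S) (Y S) (fun ω => (A ω, W ω))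
  have g4 := h.recA S le_rfl
  have g5 := hlow A h.recA S le_rfl
  have g6 := hlow B h.recB S le_rfl
  rw [Finset.sum_add_distrib, Finset.sum_const, Finset.card_range, nsmul_eq_mul] at g5 g6
  -- the sum of the blocks
  have e1 : ∑ s ∈ range S, (((k : ℝ) + ord s) * (X * Real.log 2) -
      D * ((k * (X * Real.log 2) - aA s + (C0 + Real.log 2)) +
        (k * (X * Real.log 2) - aB s + (C0 + Real.log 2)) + 1 + C0 + Real.log E) -
      r * Real.log 2 * Ex p (fun ω => (x s ω : ℝ))) =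
      k * (S * (X * Real.log 2)) + (∑ s ∈ range S, (ord s : ℝ)) * (X * Real.log 2) -
      D * ((2 * (k * (S * (X * Real.log 2))) - (∑ s ∈ range S, aA s) - ∑ s ∈ range S, aB s) +
        S * (2 * (C0 + Real.log 2) + 1 + C0 + Real.log E)) -
      r * Real.log 2 * ∑ s ∈ range S, Ex p (fun ω => (x s ω : ℝ)) := by
    rw [Finset.sum_sub_distrib, Finset.sum_sub_distrib, ← Finset.mul_sum, ← Finset.mul_sum,
      ← Finset.sum_mul, Finset.sum_add_distrib]
    have e2 : ∑ s ∈ range S, ((k * (X * Real.log 2) - aA s + (C0 + Real.log 2)) +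
        (k * (X * Real.log 2) - aB s + (C0 + Real.log 2)) + 1 + C0 + Real.log E) =
        (2 * (k * (S * (X * Real.log 2))) - (∑ s ∈ range S, aA s) - ∑ s ∈ range S, aB s) +
        S * (2 * (C0 + Real.log 2) + 1 + C0 + Real.log E) := by
      have e3 : ∀ s ∈ range S, ((k * (X * Real.log 2) - aA s + (C0 + Real.log 2)) +
          (k * (X * Real.log 2) - aB s + (C0 + Real.log 2)) + 1 + C0 + Real.log E) =
          (2 * (k * (X * Real.log 2)) + (2 * (C0 + Real.log 2) + 1 + C0 + Real.log E)) -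
            aA s - aB s := fun s _ => by ring
      rw [Finset.sum_congr rfl e3, Finset.sum_sub_distrib, Finset.sum_sub_distrib,
        Finset.sum_const, Finset.card_range, nsmul_eq_mul]
      ring
    rw [e2, Finset.sum_const, Finset.card_range, nsmul_eq_mul]
    ring
  rw [e1] at hsum
  simp only [haA, haB] at hsum
  set sA := ∑ s ∈ range S, CH p (fun ω => (η s ω, ζ s ω)) (fun ω => (A ω, (R s ω, W ω)))
    with hsA
  set sB := ∑ s ∈ range S, CH p (fun ω => (η s ω, ζ s ω)) (fun ω => (B ω, (R s ω, W ω)))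
    with hsB
  have hS0 : (0 : ℝ) ≤ S := Nat.cast_nonneg S
  have f1 : (2 * (k * (S * (X * Real.log 2))) - sA - sB) +
      S * (2 * (C0 + Real.log 2) + 1 + C0 + Real.log E) ≤
      7 * (θ + (S + 1) * (1 + C0 + Real.log E)) := by
    have t1 : 0 ≤ (S : ℝ) * (1 - Real.log 2) := mul_nonneg hS0 (by linarith)
    have t2 : 0 ≤ (S : ℝ) * Real.log E := by positivity
    have t3 : 0 ≤ (S : ℝ) * C0 := by positivity
    nlinarith
  have f2 := mul_le_mul_of_nonneg_left f1 hD0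
  have f3 : C0 * (S + 1) + C0 ≤ 2 * (θ + (S + 1) * (1 + C0 + Real.log E)) := by
    have t2 : 0 ≤ (S : ℝ) * Real.log E := by positivity
    have t3 : 0 ≤ (S : ℝ) * C0 := by positivity
    nlinarith
  have f4 : (7 * D + 2) * (θ + (S + 1) * (1 + C0 + Real.log E)) =
      D * (7 * (θ + (S + 1) * (1 + C0 + Real.log E))) +
        2 * (θ + (S + 1) * (1 + C0 + Real.log E)) := by ring
  rw [f4]
  linarith

end Pool.XB
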