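import Pool.Agent.H7.KSAT.Basic

/-!
# Lemma X for curved leaves: collisions

The separation index of two cells, and its mean when one cell is almost uniform given the other.
-/

set_option autoImplicit false

namespace Pool.XB

open Finset Real
open Pool.Agent.H49.Ent Pool.Agent.H32.Dense Pool.STK

/-- The separation index of two cells at depth `X`: `|u - v| ≈ 2 ^ (X - ri X u v)`. -/
def ri (X u v : ℕ) : ℕ := X - Nat.log 2 ((u : ℤ) - (v : ℤ)).natAbs

lemma ri_le (X u v : ℕ) : ri X u v ≤ X := Nat.sub_le _ _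

lemma log_le {X u v : ℕ} (hu : u ≤ 2 ^ X) (hv : v ≤ 2 ^ X) :
    Nat.log 2 ((u : ℤ) - (v : ℤ)).natAbs ≤ X := by
  have h1 : ((u : ℤ) - (v : ℤ)).natAbs ≤ 2 ^ X := by
    zify
    rw [abs_le]
    have h2 : (u : ℤ) ≤ 2 ^ X := by exact_mod_cast hu
    have h3 : (v : ℤ) ≤ 2 ^ X := by exact_mod_cast hv
    constructor <;> omega
  calc Nat.log 2 ((u : ℤ) - (v : ℤ)).natAbs ≤ Nat.log 2 (2 ^ X) := Nat.log_mono_right h1
    _ = X := Nat.log_pow (by norm_num) X

lemma sub_ri {X u v : ℕ} (hu : u ≤ 2 ^ X) (hv : v ≤ 2 ^ X) :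
    X - ri X u v = Nat.log 2 ((u : ℤ) - (v : ℤ)).natAbs := by
  unfold ri
  have := log_le hu hv
  omega

/-- Cells with index `< X` are apart. -/
lemma ri_sep {X u v : ℕ} (hu : u ≤ 2 ^ X) (hv : v ≤ 2 ^ X) (h : ri X u v < X) :
    (2 : ℝ) ^ (X - ri X u v) ≤ |(u : ℝ) - v| := by
  have h1 := sub_ri hu hv
  have h2 : ((u : ℤ) - (v : ℤ)).natAbs ≠ 0 := by
    intro h0
    rw [h0, Nat.log_zero_right] at h1
    omega
  have h3 := Nat.pow_log_le_self 2 h2
  rw [← h1] at h3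
  have h4 : (((2 : ℕ) ^ (X - ri X u v) : ℕ) : ℝ) ≤ ((((u : ℤ) - (v : ℤ)).natAbs : ℕ) : ℝ) := by
    exact_mod_cast h3
  rw [Nat.cast_natAbs] at h4
  push_cast at h4
  exact h4

lemma ri_near {X u v : ℕ} (hu : u ≤ 2 ^ X) (hv : v ≤ 2 ^ X) :
    u ∈ Finset.Icc (v - 2 ^ (X - ri X u v + 1)) (v + 2 ^ (X - ri X u v + 1)) := by
  have h1 := sub_ri hu hv
  have h3 := Nat.lt_pow_succ_log_self (b := 2) (by norm_num) ((u : ℤ) - (v : ℤ)).natAbs
  rw [← h1] at h3
  rw [Finset.mem_Icc]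
  have h5 : ((2 : ℕ) ^ (X - ri X u v + 1) : ℕ) = 2 ^ (X - ri X u v).succ := rfl
  constructor <;> omega

/-- A natural number with mean `Ex p R` has a small entropy. -/
lemma CH_nat {Ω T : Type} [Fintype Ω] {p : Ω → ℝ} (hp : IsLaw p) (R : Ω → ℕ) (W : Ω → T) :
    CH p R W ≤ Real.log (4 / 3) * Ex p (fun ω => (R ω : ℝ)) + Real.log 4 := by
  have h := CH_le_cross hp.nonneg hp.sum_one R W (fun _ n => 1 / 4 * (3 / 4 : ℝ) ^ n)
    (fun ω _ => by positivity) (fun _ _ => by positivity) (fun ω _ F => by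
      rw [← Finset.mul_sum]
      have h1 : ∑ n ∈ F, (3 / 4 : ℝ) ^ n ≤ ∑' n, (3 / 4 : ℝ) ^ n :=
        (summable_geometric_of_lt_one (by norm_num) (by norm_num)).sum_le_tsum F
          (fun _ _ => by positivity)
      rw [tsum_geometric_of_lt_one (by norm_num) (by norm_num)] at h1
      have h2 : (1 - 3 / 4 : ℝ)⁻¹ = 4 := by norm_num
      rw [h2] at h1
      linarith)
  refine h.trans (le_of_eq ?_)
  have e : ∀ ω, -Real.log (1 / 4 * (3 / 4 : ℝ) ^ (R ω)) =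
      Real.log (4 / 3) * (R ω : ℝ) + Real.log 4 := by
    intro ω
    rw [Real.log_mul (by norm_num) (by positivity), Real.log_pow, one_div, Real.log_inv,
      show (4 / 3 : ℝ) = (3 / 4)⁻¹ by norm_num, Real.log_inv]
    ring
  simp_rw [e]
  rw [Ex_add, Ex_smul, Ex_const hp.sum_one]

/-- **The mean separation index.** -/
theorem col {Ω T : Type} [Fintype Ω] {p : Ω → ℝ} (hp : IsLaw p) {X : ℕ} {u v : Ω → ℕ}
    (hu : ∀ ω, u ω ≤ 2 ^ X) (hv : ∀ ω, v ω ≤ 2 ^ X) (W : Ω → T) {θ : ℝ}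
    (h : X * Real.log 2 - θ ≤ CH p u (fun ω => (v ω, W ω))) :
    Real.log (3 / 2) * Ex p (fun ω => (ri X (u ω) (v ω) : ℝ)) ≤ θ + Real.log 20 := by
  set R : Ω → ℕ := fun ω => ri X (u ω) (v ω) with hR
  have h0 := hp.nonneg
  have h1 := CH_le_add h0 u R (fun ω => (v ω, W ω))
  have h2 := CH_nat hp R (fun ω => (v ω, W ω))
  have h3 := CH_le_card h0 hp.sum_one u (fun ω => (R ω, (v ω, W ω)))
    (fun t => Finset.Icc (t.2.1 - 2 ^ (X - t.1 + 1)) (t.2.1 + 2 ^ (X - t.1 + 1)))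
    (fun ω _ => ri_near (hu ω) (hv ω))
  have h4 : Ex p (fun ω => Real.log ((Finset.Icc (v ω - 2 ^ (X - R ω + 1))
      (v ω + 2 ^ (X - R ω + 1))).card : ℝ)) ≤
      Ex p (fun ω => ((X : ℝ) * Real.log 2 + Real.log 5) - Real.log 2 * (R ω : ℝ)) := by
    refine Ex_mono h0 fun ω _ => ?_
    have hRX : R ω ≤ X := ri_le _ _ _
    have c1 : (Finset.Icc (v ω - 2 ^ (X - R ω + 1)) (v ω + 2 ^ (X - R ω + 1))).card ≤
        5 * 2 ^ (X - R ω) := by
      rw [Nat.card_Icc]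
      have e1 : (2 : ℕ) ^ (X - R ω + 1) = 2 * 2 ^ (X - R ω) := by rw [pow_succ]; ring
      have e2 : 1 ≤ (2 : ℕ) ^ (X - R ω) := Nat.one_le_two_pow
      omega
    have c0 : 0 < (Finset.Icc (v ω - 2 ^ (X - R ω + 1)) (v ω + 2 ^ (X - R ω + 1))).card := by
      rw [Nat.card_Icc]
      omega
    have c2 : ((Finset.Icc (v ω - 2 ^ (X - R ω + 1)) (v ω + 2 ^ (X - R ω + 1))).card : ℝ) ≤
        5 * 2 ^ (X - R ω) := by exact_mod_cast c1
    calc Real.log ((Finset.Icc (v ω - 2 ^ (X - R ω + 1)) (v ω + 2 ^ (X - R ω + 1))).card : ℝ)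
        ≤ Real.log (5 * 2 ^ (X - R ω)) := Real.log_le_log (by exact_mod_cast c0) c2
      _ = Real.log 5 + ((X - R ω : ℕ) : ℝ) * Real.log 2 := by
          rw [Real.log_mul (by norm_num) (by positivity), Real.log_pow]
      _ = _ := by
          rw [Nat.cast_sub hRX]
          ring
  rw [Ex_sub, Ex_const hp.sum_one, Ex_smul] at h4
  have h5 : Real.log 20 = Real.log 4 + Real.log 5 := by
    rw [← Real.log_mul (by norm_num) (by norm_num)]
    norm_num
  have h6 : Real.log (3 / 2) = Real.log 2 - Real.log (4 / 3) := by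
    rw [← Real.log_div (by norm_num) (by norm_num)]
    norm_num
  rw [h5, h6, sub_mul]
  linarith [h3]

end Pool.XB
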