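import Pool.Agent.H3.XB.Newt
import Pool.Agent.H3.XB.Col

/-!
# Lemma X for curved leaves: the fibre

The entropy of `r` cells given their alternating power sums up to order `r` is at most a constant
times the mean separation index.
-/

set_option autoImplicit false

namespace Pool.XB

open Finset Real
open Pool.Agent.H49.Ent Pool.Agent.H32.Dense Pool.STK

/-- The position of a cell. -/
noncomputable def ct (X : ℕ) {r : ℕ} (z : Fin r → ℕ) (i : Fin r) : ℝ := (z i : ℝ) / 2 ^ X

/-- The separation index of a family of cells. -/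
def rm (X : ℕ) {r : ℕ} (z : Fin r → ℕ) : ℕ := ∑ i, ∑ j, if i = j then 0 else ri X (z i) (z j)

lemma ri_le_rm (X : ℕ) {r : ℕ} (z : Fin r → ℕ) {i j : Fin r} (h : i ≠ j) :
    ri X (z i) (z j) ≤ rm X z := by
  unfold rm
  calc ri X (z i) (z j) = if i = j then 0 else ri X (z i) (z j) := by rw [if_neg h]
    _ ≤ ∑ j, if i = j then 0 else ri X (z i) (z j) :=
        Finset.single_le_sum (f := fun j => if i = j then 0 else ri X (z i) (z j))
          (fun _ _ => Nat.zero_le _) (Finset.mem_univ j)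
    _ ≤ _ := Finset.single_le_sum (f := fun i => ∑ j, if i = j then 0 else ri X (z i) (z j))
          (fun _ _ => Nat.zero_le _) (Finset.mem_univ i)

lemma ct_range {X r : ℕ} {z : Fin r → ℕ} (hz : ∀ i, z i ≤ 2 ^ X) (i : Fin r) :
    0 ≤ ct X z i ∧ ct X z i ≤ 1 := by
  unfold ct
  constructor
  · positivity
  · rw [div_le_one (by positivity)]
    exact_mod_cast hz i

/-- Two families of cells with close alternating power sums are near. -/
lemma cells_near (r : ℕ) : ∃ M : ℕ, 1 ≤ M ∧ ∀ (X : ℕ) (s : Fin r → Bool) (a b : Fin r → ℕ)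
    (E x : ℕ), (∀ i, a i ≤ 2 ^ X) → (∀ i, b i ≤ 2 ^ X) → 1 ≤ E → rm X a = rm X b →
    (X ≤ x ∨ ∀ k, 1 ≤ k → k ≤ r →
      |aps s k (ct X a) - aps s k (ct X b)| ≤ (E : ℝ) * 2 ^ x / 2 ^ X) →
    ∀ l, ∃ i, b l ∈ Finset.Icc (a i - M * E * 2 ^ (x + (r + 1) * (rm X a + 1)))
      (a i + M * E * 2 ^ (x + (r + 1) * (rm X a + 1))) := by
  obtain ⟨C, hC0, hC⟩ := aps_near r
  refine ⟨⌈C⌉₊ + 1, by omega, ?_⟩
  intro X s a b E x ha hb hE hR h l
  set R := rm X a with hRd
  set L := (⌈C⌉₊ + 1) * E * 2 ^ (x + (r + 1) * (R + 1)) with hL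
  have hpos : 1 ≤ (⌈C⌉₊ + 1) * E := Nat.one_le_iff_ne_zero.2 (by positivity)
  by_cases htriv : X ≤ x ∨ X ≤ R
  · have h1 : 2 ^ X ≤ L := by
      calc 2 ^ X ≤ 2 ^ (x + (r + 1) * (R + 1)) := by
            refine Nat.pow_le_pow_right (by norm_num) ?_
            rcases htriv with h1 | h1
            · omega
            · have h2 : R + 1 ≤ (r + 1) * (R + 1) := Nat.le_mul_of_pos_left _ (by omega)
              omega
        _ = 1 * 2 ^ (x + (r + 1) * (R + 1)) := (one_mul _).symm
        _ ≤ L := Nat.mul_le_mul_right _ hpos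
    refine ⟨l, ?_⟩
    rw [Finset.mem_Icc]
    have := ha l
    have := hb l
    constructor <;> omega
  · push Not at htriv
    obtain ⟨hx, hRX⟩ := htriv
    have h' : ∀ k, 1 ≤ k → k ≤ r →
        |aps s k (ct X a) - aps s k (ct X b)| ≤ (E : ℝ) * 2 ^ x / 2 ^ X := by
      rcases h with h | h
      · omega
      · exact h
    have h2X : (0 : ℝ) < 2 ^ X := by positivity
    have sep : ∀ c : Fin r → ℕ, (∀ i, c i ≤ 2 ^ X) → rm X c = R → ∀ i j, i ≠ j →
        1 / 2 ^ R ≤ |ct X c i - ct X c j| := by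
      intro c hc hcR i j hij
      have h1 := ri_le_rm X c hij
      rw [hcR] at h1
      have h2 := ri_sep (hc i) (hc j) (h1.trans_lt hRX)
      unfold ct
      rw [← sub_div, abs_div, abs_of_pos h2X, le_div_iff₀ h2X]
      refine le_trans ?_ h2
      rw [one_div, inv_mul_le_iff₀ (by positivity), ← pow_add]
      exact pow_le_pow_right₀ (by norm_num) (by omega)
    obtain ⟨i, hi⟩ := hC s (ct X a) (ct X b) ((E : ℝ) * 2 ^ x / 2 ^ X) (1 / 2 ^ R)
      (ct_range ha) (ct_range hb) (by positivity) (by positivity) (by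
        rw [div_le_one (by positivity)]
        exact one_le_pow₀ (by norm_num)) (sep a ha hRd.symm) (sep b hb hR.symm) h' l
    refine ⟨i, ?_⟩
    have h3 : |((b l : ℝ)) - a i| ≤ (L : ℝ) := by
      unfold ct at hi
      rw [← sub_div, abs_div, abs_of_pos h2X, div_le_iff₀ h2X] at hi
      refine hi.trans ?_
      have e1 : (2 / (1 / 2 ^ R) : ℝ) = 2 ^ (R + 1) := by
        rw [pow_succ]
        field_simp
      rw [e1, ← pow_mul]
      have e2 : C * ((E : ℝ) * 2 ^ x / 2 ^ X) * 2 ^ ((R + 1) * (r + 1)) * 2 ^ X =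
          C * E * 2 ^ (x + (r + 1) * (R + 1)) := by
        rw [pow_add, mul_comm (R + 1) (r + 1)]
        field_simp
      rw [e2, hL]
      push_cast
      have h4 : C ≤ (⌈C⌉₊ : ℝ) + 1 := (Nat.le_ceil C).trans (by linarith)
      gcongr
    rw [Finset.mem_Icc]
    rw [abs_le] at h3
    have h5 : (b l : ℝ) ≤ ((a i + L : ℕ) : ℝ) := by push_cast; linarith [h3.2]
    have h6 : (a i : ℝ) ≤ ((b l + L : ℕ) : ℝ) := by push_cast; linarith [h3.1]
    have h7 : b l ≤ a i + L := by exact_mod_cast h5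
    have h8 : a i ≤ b l + L := by exact_mod_cast h6
    constructor <;> omega

/-- **The entropy of the fibre.** -/
theorem fib (r : ℕ) : ∃ C : ℝ, 0 ≤ C ∧ ∀ {Ω T : Type} [Fintype Ω] {p : Ω → ℝ}, IsLaw p →
    ∀ (X : ℕ) (z : Ω → Fin r → ℕ) (s : Fin r → Bool) (x : Ω → ℕ) (W : Ω → T) (E : ℕ),
    (∀ ω i, z ω i ≤ 2 ^ X) → 1 ≤ E → Det p W x →
    (∀ ω ω', 0 < p ω → 0 < p ω' → W ω = W ω' → X ≤ x ω ∨ ∀ k, 1 ≤ k → k ≤ r →
      |aps s k (ct X (z ω)) - aps s k (ct X (z ω'))| ≤ (E : ℝ) * 2 ^ x ω / 2 ^ X) →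
    CH p z W ≤ C * (Ex p (fun ω => (rm X (z ω) : ℝ)) + 1 + Real.log E) +
      r * Real.log 2 * Ex p (fun ω => (x ω : ℝ)) := by
  classical
  obtain ⟨M, hM, hnear⟩ := cells_near r
  have hlog2 : 0 ≤ Real.log 2 := Real.log_nonneg (by norm_num)
  set C0 : ℝ := r * (Real.log (3 * r + 1) + Real.log M + (r + 1) * Real.log 2 + 1) with hC0
  have hC0n : 0 ≤ C0 := by
    have h1 : 0 ≤ Real.log (3 * r + 1 : ℝ) := Real.log_nonneg (by
      have : (0 : ℝ) ≤ r := Nat.cast_nonneg r
      linarith)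
    have h2 : 0 ≤ Real.log M := Real.log_nonneg (by exact_mod_cast hM)
    positivity
  refine ⟨Real.log (4 / 3) + Real.log 4 + C0, ?_, ?_⟩
  · have h1 : 0 ≤ Real.log (4 / 3 : ℝ) := Real.log_nonneg (by norm_num)
    have h2 : 0 ≤ Real.log (4 : ℝ) := Real.log_nonneg (by norm_num)
    linarith
  intro Ω T _ p hp X z s x W E hz hE hx h
  have h0 := hp.nonneg
  set R : Ω → ℕ := fun ω => rm X (z ω) with hR
  set L : Ω → ℕ := fun ω => M * E * 2 ^ (x ω + (r + 1) * (R ω + 1)) with hL
  set F0 : Ω → Finset (Fin r → ℕ) := fun ω => Fintype.piFinset fun _ =>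
    univ.biUnion fun i => Finset.Icc (z ω i - L ω) (z ω i + L ω) with hF0
  set F : ℕ × T → Finset (Fin r → ℕ) := fun t =>
    if hh : ∃ ω, 0 < p ω ∧ (R ω, W ω) = t then F0 hh.choose else ∅ with hF
  have hFs : ∀ ω, 0 < p ω → ∃ ω0, 0 < p ω0 ∧ (R ω0, W ω0) = (R ω, W ω) ∧
      F (R ω, W ω) = F0 ω0 := by
    intro ω hω
    have hh : ∃ ω', 0 < p ω' ∧ (R ω', W ω') = (R ω, W ω) := ⟨ω, hω, rfl⟩
    exact ⟨hh.choose, hh.choose_spec.1, hh.choose_spec.2, dif_pos hh⟩
  have hmem : ∀ ω, 0 < p ω → z ω ∈ F (R ω, W ω) := by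
    intro ω hω
    obtain ⟨ω0, hω0, he, hF'⟩ := hFs ω hω
    rw [hF']
    simp only [Prod.mk.injEq] at he
    have hxx : x ω0 = x ω := hx ω0 ω hω0 hω he.2
    simp only [hF0, Fintype.mem_piFinset, Finset.mem_biUnion, Finset.mem_univ, true_and]
    intro l
    exact hnear X s (z ω0) (z ω) E (x ω0) (hz ω0) (hz ω) hE he.1
      (h ω0 ω hω0 hω he.2) l
  have h1 := CH_le_add h0 z R W
  have h2 := CH_nat hp R W
  have h3 := CH_le_card h0 hp.sum_one z (fun ω => (R ω, W ω)) F hmem
  have h4 : Ex p (fun ω => Real.log ((F (R ω, W ω)).card)) ≤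
      Ex p (fun ω => (r : ℝ) * (Real.log (3 * r + 1) + Real.log M + Real.log E +
        (r + 1) * Real.log 2) + ((r : ℝ) * Real.log 2 * (x ω : ℝ) +
        (r : ℝ) * ((r + 1) * Real.log 2) * (R ω : ℝ))) := by
    refine Ex_mono h0 fun ω hω => ?_
    obtain ⟨ω0, hω0, he, hF'⟩ := hFs ω hω
    simp only [Prod.mk.injEq] at he
    have hxx : x ω0 = x ω := hx ω0 ω hω0 hω he.2
    have hcne : 0 < (F (R ω, W ω)).card := Finset.card_pos.2 ⟨_, hmem ω hω⟩
    have hL1 : 1 ≤ L ω0 := Nat.one_le_iff_ne_zero.2 (by positivity)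
    have hLe : L ω0 = M * E * 2 ^ (x ω + (r + 1) * (R ω + 1)) := by
      simp only [hL]
      rw [hxx, he.1]
    have hcard : (F (R ω, W ω)).card ≤ ((3 * r + 1) * L ω0) ^ r := by
      rw [hF']
      simp only [hF0]
      rw [Fintype.card_piFinset]
      calc ∏ _a : Fin r, (univ.biUnion fun i =>
            Finset.Icc (z ω0 i - L ω0) (z ω0 i + L ω0)).card
          ≤ ∏ _a : Fin r, ((3 * r + 1) * L ω0) := by
            refine Finset.prod_le_prod (fun _ _ => Nat.zero_le _) fun _ _ => ?_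
            refine Finset.card_biUnion_le.trans ?_
            calc ∑ i : Fin r, (Finset.Icc (z ω0 i - L ω0) (z ω0 i + L ω0)).card
                ≤ ∑ _i : Fin r, 3 * L ω0 := by
                  refine Finset.sum_le_sum fun i _ => ?_
                  rw [Nat.card_Icc]
                  omega
              _ = r * (3 * L ω0) := by
                  rw [Finset.sum_const, Finset.card_univ, Fintype.card_fin, smul_eq_mul]
              _ ≤ (3 * r + 1) * L ω0 := by
                  have : r * (3 * L ω0) = (3 * r) * L ω0 := by ring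
                  rw [this]
                  exact Nat.mul_le_mul_right _ (by omega)
        _ = ((3 * r + 1) * L ω0) ^ r := by simp
    have h5 : ((F (R ω, W ω)).card : ℝ) ≤ ((3 * r + 1) * (M * E *
        2 ^ (x ω + (r + 1) * (R ω + 1)))) ^ r := by
      rw [hLe] at hcard
      exact_mod_cast hcard
    have hMr : (0 : ℝ) < M := by exact_mod_cast hM
    have hEr : (0 : ℝ) < E := by exact_mod_cast hE
    have h3r : (0 : ℝ) < 3 * r + 1 := by positivity
    calc Real.log ((F (R ω, W ω)).card)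
        ≤ Real.log (((3 * r + 1) * (M * E * 2 ^ (x ω + (r + 1) * (R ω + 1)))) ^ r) :=
          Real.log_le_log (by exact_mod_cast hcne) h5
      _ = r * (Real.log (3 * r + 1) + (Real.log M + Real.log E +
          ((x ω + (r + 1) * (R ω + 1) : ℕ) : ℝ) * Real.log 2)) := by
          rw [Real.log_pow, Real.log_mul h3r.ne' (by positivity),
            Real.log_mul (by positivity) (by positivity), Real.log_mul hMr.ne' hEr.ne',
            Real.log_pow]
      _ = _ := by
          push_cast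
          ring
  rw [Ex_add, Ex_const hp.sum_one, Ex_add, Ex_smul, Ex_smul] at h4
  have hER : 0 ≤ Ex p (fun ω => (R ω : ℝ)) := Ex_nonneg h0 fun _ _ => Nat.cast_nonneg _
  have hlE : 0 ≤ Real.log E := Real.log_nonneg (by exact_mod_cast hE)
  have a1 : 0 ≤ Real.log (4 / 3 : ℝ) := Real.log_nonneg (by norm_num)
  have a2 : 0 ≤ Real.log (4 : ℝ) := Real.log_nonneg (by norm_num)
  have a3 : (0 : ℝ) ≤ r := Nat.cast_nonneg r
  have a4 : 0 ≤ Real.log (3 * r + 1 : ℝ) := Real.log_nonneg (by linarith)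
  have a5 : 0 ≤ Real.log M := Real.log_nonneg (by exact_mod_cast hM)
  set e := Ex p (fun ω => (R ω : ℝ)) with he
  have b1 : (r : ℝ) * ((r + 1) * Real.log 2) * e ≤ C0 * e := by
    refine mul_le_mul_of_nonneg_right ?_ hER
    rw [hC0]
    refine mul_le_mul_of_nonneg_left ?_ a3
    linarith
  have b2 : (r : ℝ) * (Real.log (3 * r + 1) + Real.log M + Real.log E + (r + 1) * Real.log 2) ≤
      C0 * (1 + Real.log E) := by
    have b3 : (r : ℝ) * (Real.log (3 * r + 1) + Real.log M + (r + 1) * Real.log 2) ≤ C0 := by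
      rw [hC0]
      refine mul_le_mul_of_nonneg_left ?_ a3
      linarith
    have b4 : (r : ℝ) * Real.log E ≤ C0 * Real.log E := by
      refine mul_le_mul_of_nonneg_right ?_ hlE
      rw [hC0]
      have : (r : ℝ) * 1 ≤ r * (Real.log (3 * r + 1) + Real.log M + (r + 1) * Real.log 2 + 1) := by
        refine mul_le_mul_of_nonneg_left ?_ a3
        have : 0 ≤ ((r : ℝ) + 1) * Real.log 2 := by positivity
        linarith
      linarith
    have b5 : C0 * (1 + Real.log E) = C0 + C0 * Real.log E := by ring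
    rw [b5]
    linarith
  have b6 : Real.log (4 / 3) * e + Real.log 4 ≤
      (Real.log (4 / 3) + Real.log 4) * (e + 1 + Real.log E) := by
    have := mul_nonneg a1 hlE
    have := mul_nonneg a2 hER
    have := mul_nonneg a2 hlE
    nlinarith
  have b7 : (Real.log (4 / 3) + Real.log 4 + C0) * (e + 1 + Real.log E) =
      (Real.log (4 / 3) + Real.log 4) * (e + 1 + Real.log E) + (C0 * e +
        C0 * (1 + Real.log E)) := by ring
  rw [b7]
  linarith

end Pool.XB
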