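import Pool.Agent.H3.XB.Fib

/-!
# Lemma X for curved leaves: the image

If `r` cells are almost uniform then their alternating power sums up to order `r` are almost full:
the loss is linear in the deficiency.
-/

set_option autoImplicit false

namespace Pool.XB

open Finset Real
open Pool.Agent.H49.Ent Pool.Agent.H32.Dense Pool.STK

lemma log_cells (X : ℕ) : Real.log ((2 : ℝ) ^ X + 1) ≤ (X + 1) * Real.log 2 := by
  have h1 : (1 : ℝ) ≤ 2 ^ X := one_le_pow₀ (by norm_num)
  calc Real.log ((2 : ℝ) ^ X + 1) ≤ Real.log ((2 : ℝ) ^ (X + 1)) := by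
        refine Real.log_le_log (by positivity) ?_
        rw [pow_succ]
        linarith
    _ = (X + 1) * Real.log 2 := by
        rw [Real.log_pow]
        push_cast
        ring

/-- Cells at depth `X`, with a set of vanishing coordinates. -/
lemma CH_cells {Ω T : Type} [Fintype Ω] {p : Ω → ℝ} (hp : IsLaw p) {X r : ℕ}
    {z : Ω → Fin r → ℕ} (hz : ∀ ω i, z ω i ≤ 2 ^ X) (W : Ω → T) :
    CH p z W ≤ r * ((X + 1) * Real.log 2) := by
  have h := CH_le_card hp.nonneg hp.sum_one z W
    (fun _ => Fintype.piFinset fun _ => Finset.range (2 ^ X + 1)) (fun ω _ => by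
      rw [Fintype.mem_piFinset]
      intro i
      rw [Finset.mem_range]
      have := hz ω i
      omega)
  refine h.trans ?_
  rw [Ex_const hp.sum_one, Fintype.card_piFinset]
  simp only [Finset.card_range, Finset.prod_const, Finset.card_univ, Fintype.card_fin]
  push_cast
  rw [Real.log_pow]
  exact mul_le_mul_of_nonneg_left (log_cells X) (Nat.cast_nonneg r)

/-- One cell. -/
lemma CH_cell {Ω T : Type} [Fintype Ω] {p : Ω → ℝ} (hp : IsLaw p) {X : ℕ}
    {z : Ω → ℕ} (hz : ∀ ω, z ω ≤ 2 ^ X) (W : Ω → T) :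
    CH p z W ≤ (X + 1) * Real.log 2 := by
  have h := CH_cells hp (r := 1) (z := fun ω _ => z ω) (fun ω _ => hz ω) W
  have h2 : CH p z W ≤ CH p (fun ω (_ : Fin 1) => z ω) W :=
    CH_mono_left hp.nonneg fun _ _ _ _ hh => congrFun (Prod.ext_iff.mp hh).1 0
  simp only [Nat.cast_one, one_mul] at h
  exact h2.trans h

/-- One cell is almost uniform given another one. -/
lemma pair_full {Ω T : Type} [Fintype Ω] {p : Ω → ℝ} (hp : IsLaw p) {X r : ℕ}
    {z : Ω → Fin r → ℕ} (hz : ∀ ω i, z ω i ≤ 2 ^ X) (W : Ω → T) {θ : ℝ}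
    (h : r * (X * Real.log 2) - θ ≤ CH p z W) {i j : Fin r} (hij : i ≠ j) :
    X * Real.log 2 - (θ + r * Real.log 2) ≤
      CH p (fun ω => z ω i) (fun ω => (z ω j, W ω)) := by
  have h0 := hp.nonneg
  have hr : 0 < r := Fin.pos i
  have hlog2 : 0 ≤ Real.log 2 := Real.log_nonneg (by norm_num)
  set e : Ω → Fin r → ℕ := fun ω k => if k = i then 0 else z ω k with he
  have h1 := CH_le_add h0 z e W
  have h2 : CH p z (fun ω => (e ω, W ω)) ≤
      CH p (fun ω => z ω i) (fun ω => (z ω j, W ω)) := by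
    have h3 : CH p z (fun ω => (e ω, W ω)) ≤
        CH p (fun ω => z ω i) (fun ω => (e ω, W ω)) := by
      refine CH_mono_left h0 fun ω ω' _ _ hh => ?_
      simp only [Prod.mk.injEq] at hh
      funext k
      by_cases hk : k = i
      · rw [hk]
        exact hh.1
      · have h4 := congrFun hh.2.1 k
        simp only [he, if_neg hk] at h4
        exact h4
    refine h3.trans (CH_mono_cond h0 fun ω ω' _ _ hh => ?_)
    simp only [Prod.mk.injEq] at hh ⊢
    have h4 := congrFun hh.1 j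
    simp only [he, if_neg (Ne.symm hij)] at h4
    exact ⟨h4, hh.2⟩
  have h5 : CH p e W ≤ ((r : ℝ) - 1) * ((X + 1) * Real.log 2) := by
    have h := CH_le_card h0 hp.sum_one e W
      (fun _ => Fintype.piFinset fun k => if k = i then {0} else Finset.range (2 ^ X + 1))
      (fun ω _ => by
        rw [Fintype.mem_piFinset]
        intro k
        by_cases hk : k = i
        · simp [he, hk]
        · simp only [he, if_neg hk, Finset.mem_range]
          have := hz ω k
          omega)
    refine h.trans ?_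
    rw [Ex_const hp.sum_one, Fintype.card_piFinset,
      ← Finset.mul_prod_erase univ _ (Finset.mem_univ i)]
    have e1 : ∏ k ∈ univ.erase i, (if k = i then ({0} : Finset ℕ)
        else Finset.range (2 ^ X + 1)).card = (2 ^ X + 1) ^ (r - 1) := by
      rw [Finset.prod_congr rfl (g := fun _ => 2 ^ X + 1) (fun k hk => by
        rw [if_neg (Finset.ne_of_mem_erase hk), Finset.card_range]), Finset.prod_const,
        Finset.card_erase_of_mem (Finset.mem_univ i), Finset.card_univ, Fintype.card_fin]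
    rw [e1, if_pos rfl, Finset.card_singleton, one_mul]
    push_cast
    rw [Real.log_pow, Nat.cast_sub (by omega : 1 ≤ r), Nat.cast_one]
    refine mul_le_mul_of_nonneg_left (log_cells X) ?_
    have : (1 : ℝ) ≤ r := by exact_mod_cast hr
    linarith
  have h6 : ((r : ℝ) - 1) * ((X + 1) * Real.log 2) = r * (X * Real.log 2) - X * Real.log 2 +
      (r * Real.log 2 - Real.log 2) := by ring
  linarith

/-- The mean separation index of a family. -/
lemma sep_mean {Ω T : Type} [Fintype Ω] {p : Ω → ℝ} (hp : IsLaw p) {X r : ℕ}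
    {z : Ω → Fin r → ℕ} (hz : ∀ ω i, z ω i ≤ 2 ^ X) (W : Ω → T) {θ : ℝ} (hθ : 0 ≤ θ)
    (h : r * (X * Real.log 2) - θ ≤ CH p z W) :
    Real.log (3 / 2) * Ex p (fun ω => (rm X (z ω) : ℝ)) ≤
      r ^ 2 * (θ + r * Real.log 2 + Real.log 20) := by
  have hlog2 : 0 ≤ Real.log 2 := Real.log_nonneg (by norm_num)
  have hlog20 : 0 ≤ Real.log 20 := Real.log_nonneg (by norm_num)
  have h1 : Ex p (fun ω => (rm X (z ω) : ℝ)) =
      ∑ i, ∑ j, Ex p (fun ω => if i = j then (0 : ℝ) else (ri X (z ω i) (z ω j) : ℝ)) := by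
    unfold rm Ex
    push_cast
    simp_rw [Finset.mul_sum]
    rw [Finset.sum_comm]
    refine Finset.sum_congr rfl fun i _ => ?_
    rw [Finset.sum_comm]
  rw [h1, Finset.mul_sum]
  have h2 : ∀ i : Fin r, Real.log (3 / 2) *
      ∑ j, Ex p (fun ω => if i = j then (0 : ℝ) else (ri X (z ω i) (z ω j) : ℝ)) ≤
      r * (θ + r * Real.log 2 + Real.log 20) := by
    intro i
    rw [Finset.mul_sum]
    calc ∑ j, Real.log (3 / 2) *
          Ex p (fun ω => if i = j then (0 : ℝ) else (ri X (z ω i) (z ω j) : ℝ))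
        ≤ ∑ _j : Fin r, (θ + r * Real.log 2 + Real.log 20) := by
          refine Finset.sum_le_sum fun j _ => ?_
          by_cases hij : i = j
          · simp only [if_pos hij]
            rw [Ex_const hp.sum_one, mul_zero]
            positivity
          · simp only [if_neg hij]
            exact col hp (fun ω => hz ω i) (fun ω => hz ω j) W (pair_full hp hz W h hij)
      _ = r * (θ + r * Real.log 2 + Real.log 20) := by
          rw [Finset.sum_const, Finset.card_univ, Fintype.card_fin, nsmul_eq_mul]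
  calc ∑ i, Real.log (3 / 2) *
        ∑ j, Ex p (fun ω => if i = j then (0 : ℝ) else (ri X (z ω i) (z ω j) : ℝ))
      ≤ ∑ _i : Fin r, r * (θ + r * Real.log 2 + Real.log 20) :=
        Finset.sum_le_sum fun i _ => h2 i
    _ = r ^ 2 * (θ + r * Real.log 2 + Real.log 20) := by
        rw [Finset.sum_const, Finset.card_univ, Fintype.card_fin, nsmul_eq_mul]
        ring

/-- **The image of the alternating power sums.** -/
theorem img (r : ℕ) : ∃ C : ℝ, 0 ≤ C ∧ ∀ {Ω T U : Type} [Fintype Ω] {p : Ω → ℝ}, IsLaw p →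
    ∀ (X : ℕ) (z : Ω → Fin r → ℕ) (s : Fin r → Bool) (x : Ω → ℕ) (I : Ω → U) (W : Ω → T)
    (E : ℕ) (θ : ℝ), (∀ ω i, z ω i ≤ 2 ^ X) → 1 ≤ E → 0 ≤ θ → Det p W x →
    (∀ ω ω', 0 < p ω → 0 < p ω' → I ω = I ω' → W ω = W ω' → X ≤ x ω ∨ ∀ k, 1 ≤ k → k ≤ r →
      |aps s k (ct X (z ω)) - aps s k (ct X (z ω'))| ≤ (E : ℝ) * 2 ^ x ω / 2 ^ X) →
    r * (X * Real.log 2) - θ ≤ CH p z W →
    r * (X * Real.log 2) - C * (θ + 1 + Real.log E) -
      r * Real.log 2 * Ex p (fun ω => (x ω : ℝ)) ≤ CH p I W := by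
  obtain ⟨C, hC0, hC⟩ := fib r
  have hl : 0 < Real.log (3 / 2 : ℝ) := Real.log_pos (by norm_num)
  have hlog2 : 0 ≤ Real.log 2 := Real.log_nonneg (by norm_num)
  have hlog20 : 0 ≤ Real.log 20 := Real.log_nonneg (by norm_num)
  set D : ℝ := r ^ 2 * (1 + r * Real.log 2 + Real.log 20) / Real.log (3 / 2) with hD
  have hD0 : 0 ≤ D := by positivity
  refine ⟨C * (D + 1) + 1, by positivity, ?_⟩
  intro Ω T U _ p hp X z s x I W E θ hz hE hθ hx h hfull
  have h0 := hp.nonneg
  have hlE : 0 ≤ Real.log E := Real.log_nonneg (by exact_mod_cast hE)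
  have h1 := hC hp X z s x (fun ω => (I ω, W ω)) E hz hE
    (fun ω ω' a b hh => hx ω ω' a b (Prod.ext_iff.mp hh).2)
    (fun ω ω' a b hh => h ω ω' a b (Prod.ext_iff.mp hh).1 (Prod.ext_iff.mp hh).2)
  have h2 := CH_le_add h0 z I W
  have h3 := sep_mean hp hz W hθ hfull
  have h4 : Ex p (fun ω => (rm X (z ω) : ℝ)) ≤ D * (θ + 1) := by
    have h5 : (r : ℝ) ^ 2 * (θ + r * Real.log 2 + Real.log 20) ≤
        r ^ 2 * ((1 + r * Real.log 2 + Real.log 20) * (θ + 1)) := by
      refine mul_le_mul_of_nonneg_left ?_ (by positivity)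
      have : 0 ≤ (r * Real.log 2 + Real.log 20) * θ := by positivity
      nlinarith
    rw [hD, div_mul_eq_mul_div, le_div_iff₀ hl]
    nlinarith
  have h6 : C * (Ex p (fun ω => (rm X (z ω) : ℝ)) + 1 + Real.log E) ≤
      C * (D + 1) * (θ + 1 + Real.log E) := by
    rw [mul_assoc]
    refine mul_le_mul_of_nonneg_left ?_ hC0
    have : 0 ≤ D * Real.log E := by positivity
    nlinarith
  have h7 : (C * (D + 1) + 1) * (θ + 1 + Real.log E) =
      C * (D + 1) * (θ + 1 + Real.log E) + (θ + 1 + Real.log E) := by ring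
  rw [h7]
  linarith

end Pool.XB
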