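import Mathlib

/-!
# Lemma X for curved leaves: power sums

If the power sums of two families of `r` points of `[0, 1]` are close up to order `r`, then the
two families have close polynomials (Newton identities), and a separated family is near the other
one. The same for alternating power sums (signs `s`).
-/

set_option autoImplicit false

namespace Pool.XB

open Finset

/-- Elementary symmetric functions. -/
noncomputable def es {r : ℕ} (k : ℕ) (S : Fin r → ℝ) : ℝ := (univ.val.map S).esymm k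

/-- Power sums. -/
noncomputable def ps {r : ℕ} (k : ℕ) (S : Fin r → ℝ) : ℝ := ∑ i, S i ^ k

lemma es_zero {r : ℕ} (S : Fin r → ℝ) : es 0 S = 1 := by
  unfold es
  rw [Finset.esymm_map_val]
  simp

lemma newton {r : ℕ} (k : ℕ) (S : Fin r → ℝ) :
    (k : ℝ) * es k S = (-1) ^ (k + 1) *
      ∑ a ∈ antidiagonal k with a.1 < k, (-1) ^ a.1 * es a.1 S * ps a.2 S := by
  have h := congrArg (MvPolynomial.aeval S) (MvPolynomial.mul_esymm_eq_sum (Fin r) ℝ k)
  simp only [map_mul, map_natCast, MvPolynomial.aeval_esymm_eq_multiset_esymm, map_pow, map_neg,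
    map_one, map_sum, MvPolynomial.psum, MvPolynomial.aeval_X] at h
  exact h

lemma ps_bound {r : ℕ} (k : ℕ) {S : Fin r → ℝ} (hS : ∀ i, |S i| ≤ 1) : |ps k S| ≤ r := by
  unfold ps
  refine (Finset.abs_sum_le_sum_abs _ _).trans ?_
  calc ∑ i, |S i ^ k| ≤ ∑ _i : Fin r, (1 : ℝ) := Finset.sum_le_sum fun i _ => by
        rw [abs_pow]
        exact pow_le_one₀ (abs_nonneg _) (hS i)
    _ = r := by simp

lemma es_bound (r k : ℕ) : ∃ B : ℝ, 0 ≤ B ∧ ∀ S : Fin r → ℝ, (∀ i, |S i| ≤ 1) → |es k S| ≤ B := by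
  induction k using Nat.strong_induction_on with
  | _ k ih =>
    rcases Nat.eq_zero_or_pos k with h0 | h0
    · subst h0
      exact ⟨1, zero_le_one, fun S _ => by rw [es_zero]; simp⟩
    choose! B hB0 hB using ih
    refine ⟨∑ a ∈ antidiagonal k with a.1 < k, B a.1 * r, Finset.sum_nonneg fun a ha => ?_,
      fun S hS => ?_⟩
    · exact mul_nonneg (hB0 _ (Finset.mem_filter.1 ha).2) (Nat.cast_nonneg _)
    have h1 := newton k S
    have h2 : |(k : ℝ) * es k S| ≤ ∑ a ∈ antidiagonal k with a.1 < k, B a.1 * r := by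
      rw [h1, abs_mul, abs_pow, abs_neg, abs_one, one_pow, one_mul]
      refine (Finset.abs_sum_le_sum_abs _ _).trans (Finset.sum_le_sum fun a ha => ?_)
      rw [abs_mul, abs_mul, abs_pow, abs_neg, abs_one, one_pow, one_mul]
      have h3 := hB a.1 (Finset.mem_filter.1 ha).2 S hS
      exact mul_le_mul h3 (ps_bound _ hS) (abs_nonneg _) ((abs_nonneg _).trans h3)
    rw [abs_mul, Nat.abs_cast] at h2
    have h3 : (1 : ℝ) ≤ k := by exact_mod_cast h0
    nlinarith [abs_nonneg (es k S)]

lemma es_close (r k : ℕ) : ∃ C : ℝ, 0 ≤ C ∧ ∀ (S T : Fin r → ℝ) (δ : ℝ), (∀ i, |S i| ≤ 1) →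
    (∀ i, |T i| ≤ 1) → 0 ≤ δ → (∀ j, 1 ≤ j → j ≤ k → |ps j S - ps j T| ≤ δ) →
    |es k S - es k T| ≤ C * δ := by
  induction k using Nat.strong_induction_on with
  | _ k ih =>
    rcases Nat.eq_zero_or_pos k with h0 | h0
    · subst h0
      exact ⟨0, le_rfl, fun S T δ _ _ _ _ => by rw [es_zero, es_zero]; simp⟩
    choose! C hC0 hC using ih
    choose B hB0 hB using fun j => es_bound r j
    refine ⟨∑ a ∈ antidiagonal k with a.1 < k, (B a.1 + C a.1 * r), Finset.sum_nonneg
      fun a ha => ?_, fun S T δ hS hT hδ h => ?_⟩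
    · exact add_nonneg (hB0 _) (mul_nonneg (hC0 _ (Finset.mem_filter.1 ha).2)
        (Nat.cast_nonneg _))
    have h2 : |(k : ℝ) * (es k S - es k T)| ≤
        ∑ a ∈ antidiagonal k with a.1 < k, (B a.1 + C a.1 * r) * δ := by
      rw [mul_sub, newton k S, newton k T, ← mul_sub, abs_mul, abs_pow, abs_neg, abs_one,
        one_pow, one_mul, ← Finset.sum_sub_distrib]
      refine (Finset.abs_sum_le_sum_abs _ _).trans (Finset.sum_le_sum fun a ha => ?_)
      obtain ⟨ha1, ha2⟩ := Finset.mem_filter.1 ha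
      rw [HasAntidiagonal.mem_antidiagonal] at ha1
      have h3 := hB a.1 S hS
      have h4 := hC a.1 ha2 S T δ hS hT hδ (fun j hj1 hj2 => h j hj1 (by omega))
      have h5 := h a.2 (by omega) (by omega)
      have h6 := ps_bound a.2 hT
      have e : (-1) ^ a.1 * es a.1 S * ps a.2 S - (-1) ^ a.1 * es a.1 T * ps a.2 T =
          (-1) ^ a.1 * (es a.1 S * (ps a.2 S - ps a.2 T) + (es a.1 S - es a.1 T) * ps a.2 T) := by
        ring
      rw [e, abs_mul, abs_pow, abs_neg, abs_one, one_pow, one_mul]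
      refine (abs_add_le _ _).trans ?_
      rw [abs_mul, abs_mul]
      have h7 : |es a.1 S| * |ps a.2 S - ps a.2 T| ≤ B a.1 * δ :=
        mul_le_mul h3 h5 (abs_nonneg _) (hB0 _)
      have h8 : |es a.1 S - es a.1 T| * |ps a.2 T| ≤ C a.1 * δ * r :=
        mul_le_mul h4 h6 (abs_nonneg _) ((abs_nonneg _).trans h4)
      linarith
    rw [abs_mul, Nat.abs_cast, ← Finset.sum_mul] at h2
    have h3 : (1 : ℝ) ≤ k := by exact_mod_cast h0
    nlinarith [abs_nonneg (es k S - es k T)]

/-- The polynomial of a family. -/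
lemma prod_eq {r : ℕ} (S : Fin r → ℝ) (z : ℝ) :
    ∏ i, (z - S i) = ∑ j ∈ range (r + 1), (-1) ^ j * (es j S * z ^ (r - j)) := by
  have h := congrArg (Polynomial.eval z) (Multiset.prod_X_sub_X_eq_sum_esymm (univ.val.map S))
  rw [Multiset.map_map, Multiset.card_map, Finset.card_val, Finset.card_univ,
    Fintype.card_fin, Polynomial.eval_finsetSum] at h
  simp only [Polynomial.eval_mul, Polynomial.eval_pow, Polynomial.eval_neg, Polynomial.eval_one,
    Polynomial.eval_C, Polynomial.eval_X] at h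
  have e : Polynomial.eval z (Multiset.map ((fun t => Polynomial.X - Polynomial.C t) ∘ S)
      univ.val).prod = ∏ i, (z - S i) := by
    have e1 : (Multiset.map ((fun t => Polynomial.X - Polynomial.C t) ∘ S) univ.val).prod =
        ∏ i, (Polynomial.X - Polynomial.C (S i)) := rfl
    rw [e1, Polynomial.eval_prod]
    simp
  rw [← e, h]
  rfl

/-- Close power sums give close polynomials. -/
lemma prod_close (r : ℕ) : ∃ C : ℝ, 0 ≤ C ∧ ∀ (S T : Fin r → ℝ) (δ : ℝ), (∀ i, |S i| ≤ 1) →
    (∀ i, |T i| ≤ 1) → 0 ≤ δ → (∀ j, 1 ≤ j → j ≤ r → |ps j S - ps j T| ≤ δ) →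
    ∀ l, |∏ i, (T l - S i)| ≤ C * δ := by
  choose C hC0 hC using fun k => es_close r k
  refine ⟨∑ j ∈ range (r + 1), C j, Finset.sum_nonneg fun j _ => hC0 j,
    fun S T δ hS hT hδ h l => ?_⟩
  have h1 : ∏ i, (T l - T i) = 0 := Finset.prod_eq_zero (Finset.mem_univ l) (sub_self _)
  have h2 : ∏ i, (T l - S i) = ∏ i, (T l - S i) - ∏ i, (T l - T i) := by rw [h1, sub_zero]
  rw [h2, prod_eq, prod_eq, ← Finset.sum_sub_distrib, Finset.sum_mul]
  refine (Finset.abs_sum_le_sum_abs _ _).trans (Finset.sum_le_sum fun j hj => ?_)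
  have hj' : j ≤ r := Nat.lt_succ_iff.1 (Finset.mem_range.1 hj)
  have e : (-1) ^ j * (es j S * T l ^ (r - j)) - (-1) ^ j * (es j T * T l ^ (r - j)) =
      (-1) ^ j * ((es j S - es j T) * T l ^ (r - j)) := by ring
  rw [e, abs_mul, abs_pow, abs_neg, abs_one, one_pow, one_mul, abs_mul, abs_pow]
  have h3 := hC j S T δ hS hT hδ (fun i h1 h2 => h i h1 (h2.trans hj'))
  have h4 : |T l| ^ (r - j) ≤ 1 := pow_le_one₀ (abs_nonneg _) (hT l)
  calc |es j S - es j T| * |T l| ^ (r - j) ≤ |es j S - es j T| * 1 :=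
        mul_le_mul_of_nonneg_left h4 (abs_nonneg _)
    _ ≤ C j * δ := by rw [mul_one]; exact h3

/-- A small product with factors which are not small. -/
lemma prod_near {r : ℕ} (f : Fin r → ℝ) (i0 : Fin r) {ρ D : ℝ} (hρ : 0 < ρ) (hρ1 : ρ ≤ 1)
    (hf : ∀ i, i ≠ i0 → ρ ≤ |f i|) (hD : |∏ i, f i| ≤ D) : |f i0| ≤ D * (1 / ρ) ^ r := by
  have hr : 0 < r := Fin.pos i0
  have h0 : 0 ≤ D := (abs_nonneg _).trans hD
  rw [Finset.abs_prod, ← Finset.mul_prod_erase univ (fun i => |f i|) (Finset.mem_univ i0)] at hD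
  have h1 : ρ ^ r ≤ ∏ i ∈ univ.erase i0, |f i| := by
    calc ρ ^ r ≤ ρ ^ (univ.erase i0).card := by
          refine pow_le_pow_of_le_one hρ.le hρ1 ?_
          rw [Finset.card_erase_of_mem (Finset.mem_univ i0)]
          simp
      _ = ∏ _i ∈ univ.erase i0, ρ := by simp
      _ ≤ ∏ i ∈ univ.erase i0, |f i| := Finset.prod_le_prod (fun _ _ => hρ.le)
          fun i hi => hf i (Finset.ne_of_mem_erase hi)
  have h2 : |f i0| * ρ ^ r ≤ D := (mul_le_mul_of_nonneg_left h1 (abs_nonneg _)).trans hD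
  rw [one_div, inv_pow, ← div_eq_mul_inv, le_div_iff₀ (pow_pos hρ r)]
  exact h2

/-- Alternating power sums. -/
noncomputable def aps {r : ℕ} (s : Fin r → Bool) (k : ℕ) (a : Fin r → ℝ) : ℝ :=
  ∑ i, (if s i then a i ^ k else -(a i ^ k))

/-- **The fibre of the alternating power sums.** Two separated families with close alternating
power sums are near. -/
theorem aps_near (r : ℕ) : ∃ C : ℝ, 0 ≤ C ∧ ∀ (s : Fin r → Bool) (a b : Fin r → ℝ) (δ ρ : ℝ),
    (∀ i, 0 ≤ a i ∧ a i ≤ 1) → (∀ i, 0 ≤ b i ∧ b i ≤ 1) → 0 ≤ δ → 0 < ρ → ρ ≤ 1 →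
    (∀ i j, i ≠ j → ρ ≤ |a i - a j|) → (∀ i j, i ≠ j → ρ ≤ |b i - b j|) →
    (∀ k, 1 ≤ k → k ≤ r → |aps s k a - aps s k b| ≤ δ) →
    ∀ l, ∃ i, |b l - a i| ≤ C * δ * (2 / ρ) ^ (r + 1) := by
  obtain ⟨C, hC0, hC⟩ := prod_close r
  refine ⟨C, hC0, ?_⟩
  -- the case of a positive sign
  have key : ∀ (s : Fin r → Bool) (a b : Fin r → ℝ) (δ ρ : ℝ),
    (∀ i, 0 ≤ a i ∧ a i ≤ 1) → (∀ i, 0 ≤ b i ∧ b i ≤ 1) → 0 ≤ δ → 0 < ρ → ρ ≤ 1 →
    (∀ i j, i ≠ j → ρ ≤ |a i - a j|) → (∀ i j, i ≠ j → ρ ≤ |b i - b j|) →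
    (∀ k, 1 ≤ k → k ≤ r → |aps s k a - aps s k b| ≤ δ) →
    ∀ l, s l = true → ∃ i, |b l - a i| ≤ C * δ * (2 / ρ) ^ (r + 1) := by
    intro s a b δ ρ ha hb hδ hρ hρ1 hsa hsb h l hl
    set S : Fin r → ℝ := fun i => if s i then a i else b i with hS
    set T : Fin r → ℝ := fun i => if s i then b i else a i with hT
    have hS1 : ∀ i, |S i| ≤ 1 := by
      intro i
      rw [abs_le]
      simp only [hS]
      split_ifs
      · constructor <;> linarith [(ha i).1, (ha i).2]
      · constructor <;> linarith [(hb i).1, (hb i).2]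
    have hT1 : ∀ i, |T i| ≤ 1 := by
      intro i
      rw [abs_le]
      simp only [hT]
      split_ifs
      · constructor <;> linarith [(hb i).1, (hb i).2]
      · constructor <;> linarith [(ha i).1, (ha i).2]
    have h1 : ∀ j, 1 ≤ j → j ≤ r → |ps j S - ps j T| ≤ δ := by
      intro j hj1 hj2
      have e : ps j S - ps j T = aps s j a - aps s j b := by
        unfold ps aps
        rw [← Finset.sum_sub_distrib, ← Finset.sum_sub_distrib]
        refine Finset.sum_congr rfl fun i _ => ?_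
        simp only [hS, hT]
        split_ifs <;> ring
      rw [e]
      exact h j hj1 hj2
    have h2 := hC S T δ hS1 hT1 hδ h1 l
    have hTl : T l = b l := by simp only [hT, hl, if_true]
    rw [hTl] at h2
    obtain ⟨i0, _, hmin⟩ := Finset.exists_min_image univ (fun i => |b l - S i|) ⟨l, Finset.mem_univ l⟩
    have h3 : ∀ i, i ≠ i0 → ρ / 2 ≤ |b l - S i| := by
      intro i hi
      have hm := hmin i (Finset.mem_univ i)
      by_cases si : s i = true
      · have e1 : S i = a i := by simp only [hS, si, if_true]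
        rw [e1] at hm ⊢
        by_cases s0 : s i0 = true
        · have e2 : S i0 = a i0 := by simp only [hS, s0, if_true]
          rw [e2] at hm
          have h4 := hsa i i0 hi
          have h5 : |a i - a i0| ≤ |b l - a i0| + |b l - a i| := by
            have : a i - a i0 = (b l - a i0) - (b l - a i) := by ring
            rw [this]
            exact abs_sub _ _
          linarith
        · have e2 : S i0 = b i0 := by
            simp only [hS]
            rw [if_neg s0]
          rw [e2] at hm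
          have h4 := hsb l i0 (fun h => s0 (h ▸ hl))
          linarith
      · have e1 : S i = b i := by
          simp only [hS]
          rw [if_neg si]
        rw [e1]
        have h4 := hsb l i (fun h => si (h ▸ hl))
        linarith
    have h4 := prod_near (fun i => b l - S i) i0 (ρ := ρ / 2) (by linarith) (by linarith) h3 h2
    have h5 : 1 / (ρ / 2) = 2 / ρ := by field_simp
    rw [h5] at h4
    have h6 : (1 : ℝ) ≤ 2 / ρ := by
      rw [le_div_iff₀ hρ]
      linarith
    have h7 : (2 / ρ) ^ (r + 1) = (2 / ρ) ^ r * (2 / ρ) := pow_succ _ _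
    have h8 : 0 ≤ C * δ * (2 / ρ) ^ r := by positivity
    by_cases s0 : s i0 = true
    · have e2 : S i0 = a i0 := by simp only [hS, s0, if_true]
      refine ⟨i0, ?_⟩
      simp only [e2] at h4
      rw [h7, ← mul_assoc]
      nlinarith
    · have e2 : S i0 = b i0 := by
        simp only [hS]
        rw [if_neg s0]
      simp only [e2] at h4
      have h9 := hsb l i0 (fun h => s0 (h ▸ hl))
      refine ⟨l, ?_⟩
      have h10 : |b l - a l| ≤ 1 := by
        rw [abs_le]
        constructor <;> linarith [(ha l).1, (ha l).2, (hb l).1, (hb l).2]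
      refine h10.trans ?_
      rw [h7, ← mul_assoc]
      have h11 : 1 ≤ C * δ * (2 / ρ) ^ r * (1 / ρ) := by
        rw [mul_one_div, le_div_iff₀ hρ, one_mul]
        exact h9.trans h4
      have h12 : 1 / ρ ≤ 2 / ρ := by
        gcongr
        norm_num
      exact h11.trans (mul_le_mul_of_nonneg_left h12 h8)
  intro s a b δ ρ ha hb hδ hρ hρ1 hsa hsb h l
  by_cases hl : s l = true
  · exact key s a b δ ρ ha hb hδ hρ hρ1 hsa hsb h l hl
  · refine key (fun i => !s i) a b δ ρ ha hb hδ hρ hρ1 hsa hsb (fun k hk1 hk2 => ?_) l (by simpa using hl)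
    have e : ∀ c : Fin r → ℝ, aps (fun i => !s i) k c = -aps s k c := by
      intro c
      unfold aps
      rw [← Finset.sum_neg_distrib]
      refine Finset.sum_congr rfl fun i _ => ?_
      by_cases hi : s i = true
      · simp [hi]
      · rw [Bool.not_eq_true] at hi
        simp [hi]
    rw [e, e]
    have : -aps s k a - -aps s k b = -(aps s k a - aps s k b) := by ring
    rw [this, abs_neg]
    exact h k hk1 hk2

end Pool.XB
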