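import Pool.Agent.H3.XB.Img
import Pool.Agent.H7.KSAT.Walk
import Pool.Agent.H64.KST.SATM

/-!
# Lemma X for curved leaves: the walk

`A`, `B` are two labels of a sample (the own leaves at two times), `W` is the world, `z` is a cell
(the digits of the position in one direction) which is almost uniform given each of the leaves, and
the jets of order `< r` of the two leaves differ by the jets of `c (x - z) ^ r`. Then the jets of a
leaf are almost full. The walk changes the two leaves alternately; all points of the walk are in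
the same world.
-/

set_option autoImplicit false

namespace Pool.XB

open Finset Real
open Pool.Agent.H49.Ent Pool.Agent.H32.Dense Pool.STK Pool.KSAT

/-- The jets of `(y - x) ^ r` at `0`, without the leading one. -/
noncomputable def vv (r : ℕ) (x : ℝ) (j : Fin r) : ℝ :=
  (r.choose (j : ℕ) : ℝ) * (-x) ^ (r - (j : ℕ))

lemma sum_tl (n : ℕ) (y : Fin (n + 1) → ℝ) :
    ∑ i : Fin n, (y i.succ - y i.castSucc) = y (Fin.last n) - y 0 := by
  induction n with
  | zero => simp
  | succ n ih =>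
    rw [Fin.sum_univ_castSucc]
    have := ih (fun i => y i.castSucc)
    simp only [← Fin.castSucc_succ] at this ⊢
    rw [Fin.succ_last, this]
    simp

/-- A variable determined by a label is a function of the label. -/
lemma det_fun {Ω S T : Type} [Fintype Ω] {p : Ω → ℝ} {L : Ω → S} {y : Ω → T} [Nonempty T]
    (h : Det p L y) : ∃ f : S → T, ∀ ω, 0 < p ω → y ω = f (L ω) := by
  classical
  refine ⟨fun a => if h : ∃ ω, 0 < p ω ∧ L ω = a then y h.choose else Classical.arbitrary T,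
    fun ω hω => ?_⟩
  have hex : ∃ ω', 0 < p ω' ∧ L ω' = L ω := ⟨ω, hω, rfl⟩
  dsimp only
  rw [dif_pos hex]
  exact h ω _ hω hex.choose_spec.1 hex.choose_spec.2.symm

/-- **Lemma X for curved leaves, one block, every order.** -/
theorem xb (r : ℕ) : ∃ C : ℝ, 0 ≤ C ∧ ∀ {Ω α β T : Type} [Fintype Ω] {p : Ω → ℝ}, IsLaw p →
    ∀ (X : ℕ) (A : Ω → α) (B : Ω → β) (W : Ω → T) (z x : Ω → ℕ) (c : Ω → ℝ)
    (M1 M2 : Ω → Fin r → ℤ) (E : ℕ) (θ1 θ2 : ℝ), (∀ ω, z ω ≤ 2 ^ X) → 1 ≤ E → 0 ≤ θ1 → 0 ≤ θ2 →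
    Det p W x → Det p W c → Det p (fun ω => (A ω, W ω)) M1 → Det p (fun ω => (B ω, W ω)) M2 →
    (∀ ω, 0 < p ω → ∀ j, |(M1 ω j : ℝ) - M2 ω j -
      2 ^ X * (c ω * vv r ((z ω : ℝ) / 2 ^ X) j)| ≤ E) →
    (∀ ω, 0 < p ω → X ≤ x ω ∨ 1 / 2 ^ x ω ≤ |c ω|) →
    X * Real.log 2 - θ1 ≤ CH p z (fun ω => (A ω, W ω)) →
    X * Real.log 2 - θ2 ≤ CH p z (fun ω => (B ω, W ω)) →
    r * (X * Real.log 2) - C * (θ1 + θ2 + 1 + Real.log E) -
      r * Real.log 2 * Ex p (fun ω => (x ω : ℝ)) ≤ CH p M2 W := by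
  classical
  obtain ⟨C, hC0, hC⟩ := img r
  have hlog2 : 0 ≤ Real.log 2 := Real.log_nonneg (by norm_num)
  refine ⟨C * (r * (1 + Real.log 2) + 1 + Real.log (4 * r + 1)), ?_, ?_⟩
  · have : 0 ≤ Real.log (4 * r + 1 : ℝ) := Real.log_nonneg (by
      have : (0 : ℝ) ≤ r := Nat.cast_nonneg r
      linarith)
    positivity
  intro Ω α β T _ p hp X A B W z x c M1 M2 E θ1 θ2 hz hE hθ1 hθ2 hx hc hM1 hM2 hM hcx hA hB
  have h0 := hp.nonneg
  have hlE : 0 ≤ Real.log E := Real.log_nonneg (by exact_mod_cast hE)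
  have hlr : 0 ≤ Real.log (4 * r + 1 : ℝ) := Real.log_nonneg (by
    have : (0 : ℝ) ≤ r := Nat.cast_nonneg r
    linarith)
  rcases Nat.eq_zero_or_pos r with hr | hr
  · have h1 := CH_nonneg h0 M2 W
    have h2 : 0 ≤ C * (r * (1 + Real.log 2) + 1 + Real.log (4 * r + 1)) *
        (θ1 + θ2 + 1 + Real.log E) := by positivity
    have h3 : (r : ℝ) = 0 := by exact_mod_cast hr
    rw [h3] at h2 ⊢
    linarith
  set lam : Ω → α × T := fun ω => (A ω, W ω) with hlam
  set ξ : Ω → β × T := fun ω => (B ω, W ω) with hξ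
  obtain ⟨V, instV, q, o, o', y, hw⟩ := walk_thm hp lam ξ r
  obtain ⟨g, hg⟩ := det_fun (y := M2) hM2
  have hq := hw.isLaw
  have hq0 := hq.nonneg
  have hpo : ∀ w, 0 < q w → ∀ i, 0 < p (o i w) := fun w hw' i => (hw.marg i).pos hq0 hw'
  have hpo' : ∀ w, 0 < q w → ∀ i, 0 < p (o' i w) := fun w hw' i => (hw.marg' i).pos hq0 hw'
  -- the world is constant
  have hW1 : ∀ w, 0 < q w → ∀ i, W (o i w) = W (o' i w) := fun w hw' i =>
    congrArg Prod.snd (hw.line w hw' i)
  have hW2 : ∀ w, 0 < q w → ∀ i : Fin r, (y i.castSucc w).2 = (y i.succ w).2 := by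
    intro w hw' i
    rw [← hw.start w hw' i, ← hw.stop w hw' i]
    exact hW1 w hw' i
  have hW3 : ∀ w, 0 < q w → ∀ i : Fin (r + 1), (y i w).2 = (y 0 w).2 := by
    intro w hw' i
    induction i using Fin.induction with
    | zero => rfl
    | succ i ih => rw [← hW2 w hw' i]; exact ih
  have hW4 : ∀ w, 0 < q w → ∀ i, W (o i w) = (y 0 w).2 := by
    intro w hw' i
    rw [← hW3 w hw' i.castSucc, ← hw.start w hw' i]
  have hW5 : ∀ w, 0 < q w → ∀ i, W (o' i w) = (y 0 w).2 := fun w hw' i =>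
    (hW1 w hw' i).symm.trans (hW4 w hw' i)
  set i0 : Fin r := ⟨0, hr⟩ with hi0
  -- the increments
  have hstep : ∀ w, 0 < q w → ∀ i j, |(g (y i.succ w) j : ℝ) - g (y i.castSucc w) j -
      2 ^ X * (c (o i0 w) * (vv r ((z (o i w) : ℝ) / 2 ^ X) j -
        vv r ((z (o' i w) : ℝ) / 2 ^ X) j))| ≤ 2 * E := by
    intro w hw' i j
    have e1 : M2 (o i w) = g (y i.castSucc w) := by
      rw [← hw.start w hw' i]
      exact hg _ (hpo w hw' i)
    have e2 : M2 (o' i w) = g (y i.succ w) := by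
      rw [← hw.stop w hw' i]
      exact hg _ (hpo' w hw' i)
    have e3 : M1 (o i w) = M1 (o' i w) :=
      hM1 _ _ (hpo w hw' i) (hpo' w hw' i) (hw.line w hw' i)
    have e4 : c (o i w) = c (o i0 w) :=
      hc _ _ (hpo w hw' i) (hpo w hw' i0) ((hW4 w hw' i).trans (hW4 w hw' i0).symm)
    have e5 : c (o' i w) = c (o i0 w) :=
      hc _ _ (hpo' w hw' i) (hpo w hw' i0) ((hW5 w hw' i).trans (hW4 w hw' i0).symm)
    have h1 := hM _ (hpo w hw' i) j
    have h2 := hM _ (hpo' w hw' i) j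
    rw [e4, e1] at h1
    rw [e5, e2, ← e3] at h2
    have e6 : (g (y i.succ w) j : ℝ) - g (y i.castSucc w) j -
      2 ^ X * (c (o i0 w) * (vv r ((z (o i w) : ℝ) / 2 ^ X) j -
        vv r ((z (o' i w) : ℝ) / 2 ^ X) j)) =
      ((M1 (o i w) j : ℝ) - g (y i.castSucc w) j -
        2 ^ X * (c (o i0 w) * vv r ((z (o i w) : ℝ) / 2 ^ X) j)) -
      ((M1 (o i w) j : ℝ) - g (y i.succ w) j -
        2 ^ X * (c (o i0 w) * vv r ((z (o' i w) : ℝ) / 2 ^ X) j)) := by ring
    rw [e6]
    refine (abs_sub _ _).trans ?_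
    linarith
  have htot : ∀ w, 0 < q w → ∀ j, |(g (y (Fin.last r) w) j : ℝ) - g (y 0 w) j -
      2 ^ X * (c (o i0 w) * ∑ i, (vv r ((z (o i w) : ℝ) / 2 ^ X) j -
        vv r ((z (o' i w) : ℝ) / 2 ^ X) j))| ≤ 2 * r * E := by
    intro w hw' j
    have e1 := sum_tl r (fun i => (g (y i w) j : ℝ))
    rw [← e1, Finset.mul_sum, Finset.mul_sum, ← Finset.sum_sub_distrib]
    refine (Finset.abs_sum_le_sum_abs _ _).trans ?_
    refine (Finset.sum_le_sum fun i _ => hstep w hw' i j).trans ?_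
    rw [Finset.sum_const, Finset.card_univ, Fintype.card_fin, nsmul_eq_mul]
    exact le_of_eq (by ring)
  -- the cells
  set zz : V → Fin r → ℕ := fun w i => z (o i w) with hzz
  set zz' : V → Fin r → ℕ := fun w i => z (o' i w) with hzz'
  set xq : V → ℕ := fun w => x (o i0 w) with hxq
  -- entropies
  have hent : (r : ℝ) * (CH p z ξ + CH p z lam) ≤
      CH q (fun w i => (z (o i w), z (o' i w))) (y 0) := by
    have h1 := hw.ent (ℕ × ℕ) (fun ω ω' => (z ω, z ω'))
    have h2 := walk_step hp lam ξ z (fun ω => (z ω : ℤ))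
    have h3 : CH p z lam ≤ CH p (fun ω => (z ω : ℤ)) lam := by
      refine CH_mono_left h0 fun ω ω' _ _ h => ?_
      have h1 : (z ω : ℤ) = z ω' := (Prod.ext_iff.mp h).1
      exact_mod_cast h1
    have h4 : CH (dbl p lam) (fun w => (z w.1, (z w.2 : ℤ) - z w.1)) (fun w => ξ w.1) ≤
        CH (dbl p lam) (fun w => (z w.1, z w.2)) (fun w => ξ w.1) := by
      refine CH_mono_left (dbl_nonneg (b := lam) h0) fun ω ω' _ _ h => ?_
      simp only [Prod.mk.injEq] at h ⊢
      rw [h.1.1, h.1.2]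
      exact ⟨rfl, rfl⟩
    refine le_trans ?_ h1
    refine mul_le_mul_of_nonneg_left ?_ (Nat.cast_nonneg r)
    linarith
  have hfull : (r : ℝ) * (X * Real.log 2) - r * (θ1 + θ2 + Real.log 2) ≤
      CH q zz (fun w => (zz' w, y 0 w)) := by
    have h1 := CH_chain hq0 zz zz' (y 0)
    have h2 : CH q (fun w i => (z (o i w), z (o' i w))) (y 0) ≤
        CH q (fun w => (zz w, zz' w)) (y 0) := by
      refine CH_mono_left hq0 fun w w' _ _ h => ?_
      simp only [Prod.mk.injEq] at h
      funext i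
      exact Prod.ext (congrFun h.1.1 i) (congrFun h.1.2 i)
    have h3 := CH_cells hq (z := zz') (fun w i => hz _) (y 0)
    have h4 : (r : ℝ) * (X * Real.log 2 - θ2 + (X * Real.log 2 - θ1)) ≤
        r * (CH p z ξ + CH p z lam) :=
      mul_le_mul_of_nonneg_left (add_le_add hB hA) (Nat.cast_nonneg r)
    linarith
  have hmain := hC hq X zz (fun _ => true) xq (fun w => g (y (Fin.last r) w))
    (fun w => (zz' w, y 0 w)) ((4 * r + 1) * E) (r * (θ1 + θ2 + Real.log 2))
    (fun w i => hz _) (by nlinarith) (by positivity) (by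
      intro w w' a b hh
      simp only [Prod.mk.injEq] at hh
      refine hx _ _ (hpo w a i0) (hpo w' b i0) ?_
      rw [hW4 w a, hW4 w' b, hh.2]) (by
      intro w w' a b hI hh
      simp only [Prod.mk.injEq] at hh
      have hWW : W (o i0 w) = W (o i0 w') := by rw [hW4 w a, hW4 w' b, hh.2]
      have hcc : c (o i0 w) = c (o i0 w') := hc _ _ (hpo w a i0) (hpo w' b i0) hWW
      rcases hcx _ (hpo w a i0) with h1 | h1
      · exact Or.inl h1
      · right
        intro k hk1 hk2
        have h2 := htot w a ⟨r - k, by omega⟩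
        have h3 := htot w' b ⟨r - k, by omega⟩
        rw [← hcc, ← hI, ← hh.2] at h3
        have hz' : ∀ i, z (o' i w) = z (o' i w') := fun i => congrFun hh.1 i
        simp only [← hz'] at h3
        set j : Fin r := ⟨r - k, by omega⟩ with hj
        have h4 : |2 ^ X * (c (o i0 w) * ((∑ i, vv r ((z (o i w) : ℝ) / 2 ^ X) j) -
            ∑ i, vv r ((z (o i w') : ℝ) / 2 ^ X) j))| ≤ 4 * r * E := by
          have e1 : 2 ^ X * (c (o i0 w) * ((∑ i, vv r ((z (o i w) : ℝ) / 2 ^ X) j) -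
            ∑ i, vv r ((z (o i w') : ℝ) / 2 ^ X) j)) =
            ((g (y (Fin.last r) w) j : ℝ) - g (y 0 w) j -
              2 ^ X * (c (o i0 w) * ∑ i, (vv r ((z (o i w') : ℝ) / 2 ^ X) j -
                vv r ((z (o' i w) : ℝ) / 2 ^ X) j))) -
            ((g (y (Fin.last r) w) j : ℝ) - g (y 0 w) j -
              2 ^ X * (c (o i0 w) * ∑ i, (vv r ((z (o i w) : ℝ) / 2 ^ X) j -
                vv r ((z (o' i w) : ℝ) / 2 ^ X) j))) := by
            rw [Finset.sum_sub_distrib, Finset.sum_sub_distrib]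
            ring
          rw [e1]
          refine (abs_sub _ _).trans ?_
          linarith
        have e2 : ∀ u : V, ∑ i, vv r ((z (o i u) : ℝ) / 2 ^ X) j =
            (r.choose (r - k) : ℝ) * (-1) ^ k * aps (fun _ => true) k (ct X (zz u)) := by
          intro u
          unfold aps
          rw [Finset.mul_sum]
          refine Finset.sum_congr rfl fun i _ => ?_
          unfold vv ct
          simp only [if_true, hj, hzz]
          have e3 : r - (r - k) = k := by omega
          rw [e3, neg_pow]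
          ring
        rw [e2, e2, ← mul_sub] at h4
        simp only [abs_mul, abs_pow, abs_neg, abs_one, one_pow, mul_one, Nat.abs_cast,
          Nat.abs_ofNat] at h4
        set D := |aps (fun _ => true) k (ct X (zz w)) - aps (fun _ => true) k (ct X (zz w'))|
          with hD
        have hD0 : 0 ≤ D := abs_nonneg _
        have h5 : (1 : ℝ) ≤ (r.choose (r - k) : ℝ) := by
          exact_mod_cast Nat.choose_pos (Nat.sub_le r k)
        have h6 : 2 ^ X * (1 / 2 ^ x (o i0 w) * (1 * D)) ≤ 4 * r * E := by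
          refine le_trans ?_ h4
          gcongr
        rw [le_div_iff₀ (by positivity)]
        have h7 : (2 : ℝ) ^ X * (1 / 2 ^ x (o i0 w) * (1 * D)) = D * 2 ^ X / 2 ^ xq w := by
          simp only [hxq]
          field_simp
        rw [h7, div_le_iff₀ (by positivity)] at h6
        refine h6.trans ?_
        push_cast
        have : (0 : ℝ) ≤ E := Nat.cast_nonneg E
        gcongr
        linarith) hfull
  -- back to the law p
  have hxE : Ex q (fun w => (xq w : ℝ)) = Ex p (fun ω => (x ω : ℝ)) :=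
    (hw.marg i0).ex (fun ω => (x ω : ℝ))
  have hb1 : CH q (fun w => g (y (Fin.last r) w)) (fun w => (zz' w, y 0 w)) ≤
      CH q (fun w => g (y (Fin.last r) w)) (fun w => (y (Fin.last r) w).2) := by
    refine CH_mono_cond hq0 fun w w' a b hh => ?_
    simp only [Prod.mk.injEq] at hh
    rw [hW3 w a, hW3 w' b, hh.2]
  have hb2 : CH q (fun w => g (y (Fin.last r) w)) (fun w => (y (Fin.last r) w).2) =
      CH p (fun ω => g (ξ ω)) (fun ω => (ξ ω).2) :=
    Pool.H64.KST.CH_of_law hq0 h0 (hw.cell (Fin.last r)) g Prod.snd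
  have hb3 : CH p (fun ω => g (ξ ω)) (fun ω => (ξ ω).2) = CH p M2 W := by
    refine CH_congr h0 ?_ ?_ (fun _ _ _ _ h => h) (fun _ _ _ _ h => h)
    · intro ω ω' a b hh
      rw [hg ω a, hg ω' b]
      exact (Prod.ext_iff.mp hh).1
    · intro ω ω' a b hh
      have := (Prod.ext_iff.mp hh).1
      simp only at this ⊢
      rw [hg ω a, hg ω' b] at this
      exact this
  rw [hxE] at hmain
  rw [hb2, hb3] at hb1
  refine le_trans ?_ hb1
  refine le_trans ?_ hmain
  have hcast : (((4 * r + 1) * E : ℕ) : ℝ) = (4 * r + 1) * E := by push_cast; ring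
  have hE' : (0 : ℝ) < E := by exact_mod_cast hE
  rw [hcast, Real.log_mul (by positivity) hE'.ne']
  have hfin : C * (r * (θ1 + θ2 + Real.log 2) + 1 + (Real.log (4 * r + 1) + Real.log E)) ≤
      C * (r * (1 + Real.log 2) + 1 + Real.log (4 * r + 1)) * (θ1 + θ2 + 1 + Real.log E) := by
    rw [mul_assoc]
    refine mul_le_mul_of_nonneg_left ?_ hC0
    have b1 : 0 ≤ (r : ℝ) * (θ1 + θ2) := by positivity
    have b2 : 0 ≤ (r : ℝ) * Real.log 2 * (θ1 + θ2) := by positivity
    have b3 : 0 ≤ (r : ℝ) * (1 + Real.log 2) * Real.log E := by positivity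
    have b4 : 0 ≤ Real.log (4 * r + 1 : ℝ) * (θ1 + θ2) := by positivity
    have b5 : 0 ≤ Real.log (4 * r + 1 : ℝ) * Real.log E := by positivity
    nlinarith
  linarith

end Pool.XB
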